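import Pool.Agent.Lib.DI.H3.Spec

set_option autoImplicit false

/-!
# Theorem DI, part H3: the congruence for `w`
-/

open scoped Pointwise nonZeroDivisors

noncomputable section

namespace Pool.Agent.DI.H3

open Pool.Agent.MuZ Pool.Agent.FW Pool.Agent.DI NumberField IsDedekindDomain

namespace CngAux

variable {P : Ideal ZZ}

theorem int_wO : IsIntegral ℤ wO := by
  refine ⟨Polynomial.X ^ 2 - Polynomial.X + Polynomial.C 2, ?_, ?_⟩
  · monicity!
  · rw [Polynomial.eval₂_add, Polynomial.eval₂_sub, Polynomial.eval₂_pow, Polynomial.eval₂_X,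
      Polynomial.eval₂_C, wO_sq]
    simp

theorem int_toO (v : OO) : IsIntegral ℤ (toO v) := by
  change IsIntegral ℤ ((v.re : Om) + v.im * wO)
  exact (isIntegral_algebraMap (R := ℤ) (A := Om) (x := v.re)).add
    ((isIntegral_algebraMap (R := ℤ) (A := Om) (x := v.im)).mul int_wO)

/-- products of congruent elements are congruent -/
theorem prod_congr [hP : P.IsPrime] {ι : Type*} (s : Finset ι) (f g : ι → Om)
    (hg : ∀ i ∈ s, VP P (g i)) (h : ∀ i ∈ s, MP P (f i - g i)) :
    MP P (∏ i ∈ s, f i - ∏ i ∈ s, g i) := by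
  classical
  induction s using Finset.induction_on with
  | empty =>
    rw [Finset.prod_empty, Finset.prod_empty, sub_self]
    exact MP.zero
  | insert a s ha ih =>
    have h1 := ih (fun i hi => hg i (Finset.mem_insert_of_mem hi))
      (fun i hi => h i (Finset.mem_insert_of_mem hi))
    have h2 := h a (Finset.mem_insert_self a s)
    have h3 := hg a (Finset.mem_insert_self a s)
    have h4 : VP P (∏ i ∈ s, g i) := VP.prod s g fun i hi => hg i (Finset.mem_insert_of_mem hi)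
    have h5 : VP P (∏ i ∈ s, f i) := by
      have e : ∏ i ∈ s, f i = ∏ i ∈ s, g i + (∏ i ∈ s, f i - ∏ i ∈ s, g i) := by ring
      rw [e]
      exact h4.add h1.vp
    rw [Finset.prod_insert ha, Finset.prod_insert ha]
    have e : f a * ∏ i ∈ s, f i - g a * ∏ i ∈ s, g i =
        (f a - g a) * ∏ i ∈ s, f i + g a * (∏ i ∈ s, f i - ∏ i ∈ s, g i) := by ring
    rw [e]
    exact (MP.mul_right h2 h5).add (MP.mul_left h3 h1)

theorem pow_congr [hP : P.IsPrime] {x y : Om} (hy : VP P y) (h : MP P (x - y)) (n : ℕ) :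
    MP P (x ^ n - y ^ n) := by
  have h1 := prod_congr (P := P) (Finset.range n) (fun _ => x) (fun _ => y) (fun _ _ => hy)
    (fun _ _ => h)
  rw [Finset.prod_const, Finset.prod_const, Finset.card_range] at h1
  exact h1

end CngAux

open CngAux in
theorem tCng (h1 : S_D3) (h2 : S_D6) (h3 : S_hLat) (h4 : S_hGd) (h5 : S_hUni) (h6 : S_hRdm)
    (h7 : S_UNm) (h8 : S_UCop) (h9 : S_UHN) : S_hCng := by
  intro f N μ S T v l la r hD c hc P hP hlP hla
  have hPp : P.IsPrime := hP.1
  obtain ⟨-, hLat2, -⟩ := h3 f l la r hD.toDatL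
  obtain ⟨-, -, -, -, -, -, -, -, -, -, hcard, -, -⟩ := h6 f l la r hD.toDatL
  obtain ⟨-, -, -, -, hNmc, -⟩ := h7
  obtain ⟨-, -, -, hCopM, -, -, hCop2, -⟩ := h8
  obtain ⟨⟨-, -, -, hH1⟩, -⟩ := h9 f N hD.hf hD.h7
  obtain ⟨hU1, hU2, hU3⟩ := h5 f N μ S T v l la r hD
  -- (0) the primes 2 and μ
  have hl2 : l ≠ 2 := by
    have := hD.hl4
    omega
  have hlodd : l % 2 = 1 := by
    have := hD.hl4
    omega
  have hlM : MP P ((l : ℕ) : Om) := (MP.nat_iff l).2 hlP
  have hlt : ∀ a b : ℤ, MP P (a : Om) → a * b + l * ((1 - a * b) / l) = 1 → False := by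
    intro a b ha hab
    have e : (1 : Om) = (a : Om) * (b : Om) + ((l : ℕ) : Om) * (((1 - a * b) / l : ℤ) : Om) := by
      exact_mod_cast hab.symm
    apply MP.one_not (P := P)
    rw [e]
    exact (MP.mul_right ha (VP.int b)).add (MP.mul_right hlM (VP.int _))
  have hcop : ∀ a : ℤ, MP P (a : Om) → ¬ IsCoprime a (l : ℤ) := by
    intro a ha hab
    obtain ⟨x, y, hxy⟩ := hab
    have hl0 : (l : ℤ) ≠ 0 := by exact_mod_cast hD.hl.ne_zero
    refine hlt a x ha ?_
    have e1 : 1 - a * x = (l : ℤ) * y := by linear_combination -hxy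
    rw [e1, Int.mul_ediv_cancel_left _ hl0]
    linear_combination hxy
  have hP2 : ¬ MP P 2 := by
    intro h
    refine hcop 2 (by exact_mod_cast h) ?_
    refine ⟨-((l / 2 : ℕ) : ℤ), 1, ?_⟩
    have : (l : ℤ) = 2 * ((l / 2 : ℕ) : ℤ) + 1 := by omega
    linear_combination this
  have hPμ : ¬ MP P (toO μ) := by
    intro h
    refine hcop (Nm μ) ?_ hD.hlμ
    have e : ((Nm μ : ℤ) : Om) = toO μ * toO (cjO μ) := by
      rw [← map_mul, ← hNmc, map_intCast]
    rw [e]
    exact MP.mul_right h (VP.integral (int_toO _))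
  have hμ2 : Cop μ 2 := ((hCopM μ 2 f).1 hD.hμ).1
  have hμ2' : IsCoprime μ 2 := (hCop2 μ).2 hμ2
  have hndμ : ¬ (2 : ℤ) ∣ Nm μ := by
    intro h
    have h1 : IsCoprime (Nm μ) ((2 : ℕ) : ℤ) := hμ2
    have h2 := h1.isUnit_of_dvd' h (by norm_num)
    exact absurd (Int.isUnit_iff.1 h2) (by norm_num)
  have hndla : ¬ (2 : ℤ) ∣ Nm la := by
    rw [hD.hla]
    omega
  have hN1 : 1 ≤ N := by
    have := hD.hN
    omega
  obtain ⟨hUs, hUn, hUu, hUt⟩ := hU1 P hP hP2
  -- (1) the congruences for one `t`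
  have hgood : ∀ t ∈ T, Gd μ (Tz f N (t * v)) ∧ ¬ Lat (toC (la * μ) * Tz f N (t * v)) := by
    intro t ht
    obtain ⟨-, g1, g2, -⟩ := h4 f N μ (t * v) la 0 hD.hf hN1 hndμ (hU2 t ht) hndla
    exact ⟨g1, g2⟩
  have hj : ∀ t ∈ T, ∀ j : ℕ, j < l →
      MP P (Theta μ S (Tz f N (t * v) + pL la j) - Theta μ S (Tz f N (t * v))) := by
    intro t ht j hjl
    rcases Nat.eq_zero_or_pos j with rfl | hj0
    · have e : pL la 0 = 0 := by
        unfold pL
        simp
      rw [e, add_zero, sub_self]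
      exact MP.zero
    · obtain ⟨l1, l2⟩ := hLat2 j hj0 hjl
      have hz := (h1 la l hD.hl hl2 hD.hl7 hD.hla P hP hla (pL la j) l1 l2).1
      have hg := (hgood t ht).1
      exact (h2 μ S hμ2' hD.hS P hP hP2 hPμ _ hg.1 (hg.2 P hP hP2)).1 _ hz
  have hla' : ∀ t ∈ T, MP P (Theta μ S (toC la * Tz f N (t * v)) -
      Theta μ S (Tz f N (t * v)) ^ l) := by
    intro t ht
    have hg := (hgood t ht).1
    exact (h2 μ S hμ2' hD.hS P hP hP2 hPμ _ hg.1 (hg.2 P hP hP2)).2 la l hD.hl hl2 hD.hl7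
      hD.hla hla
  -- (2) `ε_s ≡ u ^ ((l-1)/2)`
  have hsub : ∀ j ∈ Sqs l, j < l := by
    intro j hj
    classical
    unfold Sqs at hj
    exact Finset.mem_range.1 (Finset.mem_of_mem_filter j hj)
  have heps : MP P (epq f N μ S T v la (Sqs l) - uN f N μ S T v ^ ((l - 1) / 2)) := by
    rw [hU3, ← Finset.prod_pow]
    unfold epq
    refine prod_congr T _ _ (fun t ht => (hUt t ht).1.pow _) fun t ht => ?_
    have e : Theta μ S (Tz f N (t * v)) ^ ((l - 1) / 2) =
        ∏ _j ∈ Sqs l, Theta μ S (Tz f N (t * v)) := by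
      rw [Finset.prod_const, hcard]
    rw [e]
    exact prod_congr (Sqs l) _ _ (fun _ _ => (hUt t ht).1) fun j hj' => hj t ht j (hsub j hj')
  -- (3) `c ≡ 1`
  have hc1 : MP P (c - 1) := by
    obtain ⟨t, ht, -⟩ := hD.hT.ex 1 hH1
    obtain ⟨-, -, -, hdist⟩ := hc
    have hg := hgood t ht
    have hd := hdist (Tz f N (t * v)) hg.1.1 hg.2
    have e1 : MP P (∏ j ∈ Finset.range l, Theta μ S (Tz f N (t * v) + pL la j) -
        Theta μ S (Tz f N (t * v)) ^ l) := by
      have e : Theta μ S (Tz f N (t * v)) ^ l =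
          ∏ _j ∈ Finset.range l, Theta μ S (Tz f N (t * v)) := by
        rw [Finset.prod_const, Finset.card_range]
      rw [e]
      exact prod_congr _ _ _ (fun _ _ => (hUt t ht).1) fun j hj' =>
        hj t ht j (Finset.mem_range.1 hj')
    rw [hd] at e1
    have e2 : UP P (Theta μ S (toC la * Tz f N (t * v))) :=
      UP.congr ((hUt t ht).pow l) (hla' t ht)
    have e3 : MP P ((c - 1) * Theta μ S (toC la * Tz f N (t * v))) := by
      have e4 := e1.sub (hla' t ht)
      have e5 : (c - 1) * Theta μ S (toC la * Tz f N (t * v)) =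
          c * Theta μ S (toC la * Tz f N (t * v)) - Theta μ S (Tz f N (t * v)) ^ l -
            (Theta μ S (toC la * Tz f N (t * v)) - Theta μ S (Tz f N (t * v)) ^ l) := by
        ring
      rw [e5]
      exact e4
    have e6 := MP.mul_right e3 e2.inv.1
    rwa [mul_inv_cancel_right₀ e2.ne_zero] at e6
  -- (4) end
  have hcU : UP P c := hc.2.2.1 P hP
  have hck : MP P (c ^ (T.card / 2) - 1) := by
    have := pow_congr (P := P) VP.one hc1 (T.card / 2)
    rwa [one_pow] at this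
  have hck' : UP P (c ^ (T.card / 2)) := hcU.pow _
  have e7 : epq f N μ S T v la (Sqs l) / c ^ (T.card / 2) - uN f N μ S T v ^ ((l - 1) / 2) =
      ((epq f N μ S T v la (Sqs l) - uN f N μ S T v ^ ((l - 1) / 2)) -
        uN f N μ S T v ^ ((l - 1) / 2) * (c ^ (T.card / 2) - 1)) * (c ^ (T.card / 2))⁻¹ := by
    have h0 := hck'.ne_zero
    field_simp
    ring
  rw [e7]
  exact MP.mul_right (heps.sub (MP.mul_left (hUu.1.pow _) hck)) hck'.inv.1

end Pool.Agent.DI.H3
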