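import Pool.Agent.Lib.DI.H3.Spec

set_option autoImplicit false

/-!
# Theorem DI, part H3: the Galois action on `ε`

Module `Eps`: `tEps`, the statement `S_hEps` of `DI/H3/Spec.lean`.
-/

open scoped Pointwise nonZeroDivisors

noncomputable section

namespace Pool.Agent.DI.H3

open Pool.Agent.MuZ Pool.Agent.FW Pool.Agent.DI NumberField IsDedekindDomain

namespace EpsAux

theorem tor_Tz (f N : ℕ) (x : OO) (hf : 0 < f) : Tor (Tz f N x) :=
  ⟨x, f * 2 ^ N, Nat.mul_pos hf (pow_pos (by norm_num) N), rfl⟩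

theorem Tz_neg (f N : ℕ) (x : OO) : Tz f N (-x) = - Tz f N x := by
  unfold Tz
  rw [map_neg, neg_div]

theorem Tz_add (f N : ℕ) (x y : OO) (hf : 0 < f) :
    Tz f N (x + (f * 2 ^ N : ℕ) * y) = Tz f N x + toC y := by
  have hm : ((f * 2 ^ N : ℕ) : ℂ) ≠ 0 :=
    Nat.cast_ne_zero.2 (Nat.mul_pos hf (pow_pos (by norm_num) N)).ne'
  unfold Tz
  rw [map_add, map_mul, map_natCast]
  field_simp

/-- The action on one factor. -/
theorem key (h1 : S_E15) (h2 : S_D8) (h6 : S_hLat) (h7 : S_UCop) (h9 : S_UEx)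
    (f N : ℕ) (μ : OO) (S : Finset ℂ) (T : Finset OO) (v : OO) (l : ℕ) (la : OO)
    (r : ZMod l) (D : Dat f N μ S T v l la r) (τ : Gal(Om/ℚ)) (hτ : τ ∈ GK) (a : OO)
    (hP : Psi τ (f * 2 ^ N * l * (Nm μ).toNat) a) (y : OO) (j : ℕ) :
    τ (Theta μ S (Tz f N y + pL la j)) =
      Theta μ S (Tz f N (a * y) + pL la ((rd r a * (j : ZMod l)).val)) := by
  have hf0 : 0 < f := D.hf.pos
  have hl0 : 0 < l := D.hl.pos
  have hμ2 : IsCoprime μ 2 := by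
    obtain ⟨-, -, -, k4, -, -, k7, -⟩ := h7
    exact (k7 μ).2 ((k4 μ 2 f).1 D.hμ).1
  have hm0 : ((f * 2 ^ N : ℕ) : ℂ) ≠ 0 :=
    Nat.cast_ne_zero.2 (Nat.mul_pos hf0 (pow_pos (by norm_num) N)).ne'
  have hlC : (l : ℂ) ≠ 0 := Nat.cast_ne_zero.2 hl0.ne'
  have hM : 0 < f * 2 ^ N * l := Nat.mul_pos (Nat.mul_pos hf0 (pow_pos (by norm_num) N)) hl0
  obtain ⟨g1, -, -, -, g5, g6, -⟩ := h6 f l la r D.toDatL
  have e1 : Tz f N y + pL la j =
      toC (y * (l : OO) + ((f * 2 ^ N : ℕ) : OO) * (j * cjO la)) / (f * 2 ^ N * l : ℕ) := by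
    rw [g5 j, map_add, map_mul toC y, map_natCast, map_mul toC ((f * 2 ^ N : ℕ) : OO), map_natCast,
      Nat.cast_mul (f * 2 ^ N) l]
    unfold Tz
    field_simp
  have e2 : toC (a * (y * (l : OO) + ((f * 2 ^ N : ℕ) : OO) * (j * cjO la))) /
      (f * 2 ^ N * l : ℕ) = Tz f N (a * y) + toC a * pL la j := by
    rw [map_mul, mul_div_assoc, ← e1, mul_add]
    congr 1
    unfold Tz
    rw [map_mul, mul_div_assoc]
  have hne : NeZero l := ⟨hl0.ne'⟩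
  obtain ⟨x, hx⟩ := g1 a j ((rd r a * (j : ZMod l)).val) (ZMod.natCast_zmod_val _)
  have hT : Tor (Tz f N (a * y) + pL la ((rd r a * (j : ZMod l)).val)) := by
    obtain ⟨-, -, -, -, k5, -⟩ := h9
    exact (k5 _ _ (tor_Tz f N (a * y) hf0) (g6 _)).1
  rw [e1, (h1 μ S hμ2 D.hS).1 τ hτ (f * 2 ^ N * l) a _ hM hP, e2, hx, ← add_assoc]
  exact (h2 μ S S D.hS D.hS _ hT).2.2.1 x

/-- The product over one set of residues. -/
theorem key2 (h1 : S_E15) (h2 : S_D8) (h3 : S_hTP) (h4 : S_hRdm) (h6 : S_hLat) (h7 : S_UCop)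
    (h9 : S_UEx)
    (f N : ℕ) (μ : OO) (S : Finset ℂ) (T : Finset OO) (v : OO) (l : ℕ) (la : OO)
    (r : ZMod l) (D : Dat f N μ S T v l la r) (τ : Gal(Om/ℚ)) (hτ : τ ∈ GK) (a : OO)
    (hP : Psi τ (f * 2 ^ N * l * (Nm μ).toNat) a) (ha : HN f N a) (J J' : Finset ℕ)
    (hJ : ∀ G : ℕ → Om, ∏ j ∈ J, G ((rd r a * (j : ZMod l)).val) = ∏ j ∈ J', G j)
    (hJ' : ∀ G : ℕ → Om, ∏ j ∈ J', G (((-1 : ZMod l) * (j : ZMod l)).val) = ∏ j ∈ J', G j) :
    τ (epq f N μ S T v la J) = epq f N μ S T v la J' := by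
  have hf0 : 0 < f := D.hf.pos
  have hl0 : 0 < l := D.hl.pos
  have hne : NeZero l := ⟨hl0.ne'⟩
  obtain ⟨g1, -, -, -, g5, g6, -⟩ := h6 f l la r D.toDatL
  obtain ⟨-, -, -, d4, -, d6, -⟩ := h4 f l la r D.toDatL
  have hrm : rd r (-1 : OO) = -1 := by rw [d4, d6]
  have hTor : ∀ (x : OO) (j : ℕ), Tor (Tz f N x + pL la j) := by
    intro x j
    obtain ⟨-, -, -, -, k5, -⟩ := h9
    exact (k5 _ _ (tor_Tz f N x hf0) (g6 _)).1
  have hD : ∀ z : ℂ, Tor z → Theta μ S (-z) = Theta μ S z ∧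
      ∀ x : OO, Theta μ S (z + toC x) = Theta μ S z := fun z hz =>
    ⟨(h2 μ S S D.hS D.hS z hz).2.1, (h2 μ S S D.hS D.hS z hz).2.2.1⟩
  have hev : ∀ x : OO, ∏ j ∈ J', Theta μ S (Tz f N (-x * v) + pL la j) =
      ∏ j ∈ J', Theta μ S (Tz f N (x * v) + pL la j) := by
    intro x
    rw [← hJ' (fun j => Theta μ S (Tz f N (x * v) + pL la j))]
    refine Finset.prod_congr rfl fun j _ => ?_
    obtain ⟨y, hy⟩ := g1 (-1) j (((-1 : ZMod l) * (j : ZMod l)).val) (by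
      rw [hrm]
      exact ZMod.natCast_zmod_val _)
    have hy2 : pL la j = -(pL la (((-1 : ZMod l) * (j : ZMod l)).val) + toC y) := by
      rw [← hy, map_neg, map_one]
      ring
    have e1 : Tz f N (-x * v) + pL la j =
        -((Tz f N (x * v) + pL la (((-1 : ZMod l) * (j : ZMod l)).val)) + toC y) := by
      rw [neg_mul, Tz_neg, hy2]
      ring
    have hT2 : Tor ((Tz f N (x * v) + pL la (((-1 : ZMod l) * (j : ZMod l)).val)) + toC y) := by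
      obtain ⟨-, -, -, -, k5, -, k7, -⟩ := h9
      exact (k5 _ _ (hTor _ _) (k7 _ ⟨y, rfl⟩)).1
    rw [e1, (hD _ hT2).1, (hD _ (hTor _ _)).2 y]
  have hper : ∀ x y : OO, ∏ j ∈ J', Theta μ S (Tz f N ((x + (f * 2 ^ N : ℕ) * y) * v) + pL la j) =
      ∏ j ∈ J', Theta μ S (Tz f N (x * v) + pL la j) := by
    intro x y
    refine Finset.prod_congr rfl fun j _ => ?_
    have e1 : Tz f N ((x + (f * 2 ^ N : ℕ) * y) * v) + pL la j =
        (Tz f N (x * v) + pL la j) + toC (y * v) := by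
      rw [add_mul, mul_assoc, Tz_add f N _ _ hf0]
      ring
    rw [e1, (hD _ (hTor _ _)).2 (y * v)]
  have h5 := h3 f N T a (fun x => ∏ j ∈ J', Theta μ S (Tz f N (x * v) + pL la j)) D.hf D.h7 D.hT ha
    hev hper
  unfold epq
  rw [← h5, map_prod]
  refine Finset.prod_congr rfl fun t _ => ?_
  rw [map_prod, ← hJ (fun j => Theta μ S (Tz f N (a * t * v) + pL la j))]
  refine Finset.prod_congr rfl fun j _ => ?_
  rw [key h1 h2 h6 h7 h9 f N μ S T v l la r D τ hτ a hP (t * v) j, mul_assoc]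

end EpsAux

/-- **Galois action on `ε`.** -/
theorem tEps (h1 : S_E15) (h2 : S_D8) (h3 : S_hTP) (h4 : S_hRdm) (h5 : S_hJP) (h6 : S_hLat)
    (h7 : S_UCop) (h9 : S_UEx) : S_hEps := by
  intro f N μ S T v l la r D τ hτ a hP ha
  have hca : Cop a l := by
    obtain ⟨-, -, -, k4, -⟩ := h7
    exact ((k4 a (f * 2 ^ N) l).1 ((k4 a (f * 2 ^ N * l) (Nm μ).toNat).1 hP.1).1).2
  obtain ⟨-, -, -, -, -, -, d7, -, -, d10, -⟩ := h4 f l la r D.toDatL
  have hra : rd r a ≠ 0 := d7 a hca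
  have hfact : Fact l.Prime := ⟨D.hl⟩
  have hm1 : (-1 : ZMod l) ≠ 0 := neg_ne_zero.2 one_ne_zero
  have q := fun G : ℕ → Om => h5 f l la r D.toDatL (-1) G hm1
  have p := fun G : ℕ → Om => h5 f l la r D.toDatL (rd r a) G hra
  have K := EpsAux.key2 h1 h2 h3 h4 h6 h7 h9 f N μ S T v l la r D τ hτ a hP ha
  refine ⟨fun hs => ⟨?_, ?_⟩, fun hs => ⟨?_, ?_⟩⟩
  · exact K _ _ (fun G => (p G).1 hs) (fun G => (q G).1 d10)
  · exact K _ _ (fun G => (p G).2.1 hs) (fun G => (q G).2.1 d10)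
  · exact K _ _ (fun G => (p G).2.2.1 hs) (fun G => (q G).2.1 d10)
  · exact K _ _ (fun G => (p G).2.2.2 hs) (fun G => (q G).1 d10)

end Pool.Agent.DI.H3
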