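import Pool.Agent.Lib.DI.H3.Spec

set_option autoImplicit false

/-!
# Theorem DI, part H3, module `Fix`: Galois theory of `L_n`
-/

open scoped Pointwise nonZeroDivisors

noncomputable section

namespace Pool.Agent.DI.H3

open Pool.Agent.MuZ Pool.Agent.FW Pool.Agent.DI NumberField IsDedekindDomain

namespace FixAux

theorem pt (m k : ℕ) (hm : 0 < m) (hk : 0 < k) (v : OO) :
    toC v / (m : ℂ) = toC ((k : OO) * v) / ((m * k : ℕ) : ℂ) := by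
  have h1 : (m : ℂ) ≠ 0 := Nat.cast_ne_zero.2 hm.ne'
  have h2 : (k : ℂ) ≠ 0 := Nat.cast_ne_zero.2 hk.ne'
  rw [map_mul, map_natCast, Nat.cast_mul]
  field_simp

theorem psi_of_mul (h5 : S_UCop) (τ : Gal(Om/ℚ)) (m k : ℕ) (a : OO) (hm : 0 < m) (hk : 0 < k)
    (h : Psi τ (m * k) a) : Psi τ m a := by
  obtain ⟨-, -, -, hC4, -⟩ := h5
  refine ⟨((hC4 a m k).1 h.1).1, fun v => ?_⟩
  have h6 := h.2 ((k : OO) * v)
  have e : a * ((k : OO) * v) = (k : OO) * (a * v) := by ring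
  rw [e, ← pt m k hm hk v, ← pt m k hm hk (a * v)] at h6
  exact h6

end FixAux

theorem tFix (h1 : S_E8) (h2 : S_E1) (h3 : S_E9) (h4 : S_UHN) (h5 : S_UCop) : S_hFix := by
  refine ⟨?_, FixAux.psi_of_mul h5⟩
  intro f N hf h7
  obtain ⟨⟨-, hm1, -, -⟩, -, hmul, -, hper, -, hcop, -⟩ := h4 f N hf h7
  have hf0 : 0 < f := hf.pos
  have hM : 0 < f * 2 ^ N := by positivity
  obtain ⟨hfin, hKQ, hE8⟩ := h1 (f * 2 ^ N) (HN f N) hM hm1 hcop hper hmul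
  have key : ∀ τ : Gal(Om/ℚ), τ ∈ (Ln f N).fixingSubgroup ↔ ∀ x ∈ Ln f N, τ x = x :=
    fun τ => IntermediateField.mem_fixingSubgroup_iff (Ln f N) τ
  have hGK : ∀ τ : Gal(Om/ℚ), τ ∈ (Ln f N).fixingSubgroup → τ ∈ GK := by
    intro τ hτ
    rw [key] at hτ
    exact (IntermediateField.mem_fixingSubgroup_iff KQ τ).2 fun x hx => hτ x (hKQ hx)
  refine ⟨hfin, ?_, ?_⟩
  · intro τ
    constructor
    · intro hτ
      have hG := hGK τ hτ
      refine ⟨hG, fun a ha => ?_⟩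
      exact (hE8 τ hG a ha).1 ((key τ).1 hτ)
    · rintro ⟨hG, hτ⟩
      obtain ⟨a, ha⟩ := h2.1 τ hG (f * 2 ^ N) hM
      exact (key τ).2 ((hE8 τ hG a ha).2 (hτ a ha))
  · intro σ _ τ hτ
    rw [key] at hτ ⊢
    intro x hx
    have h6 : σ⁻¹ x ∈ Ln f N := (h3 f hf h7).2.1 N σ⁻¹ x hx
    have h7 := hτ _ h6
    rw [AlgEquiv.mul_apply, AlgEquiv.mul_apply, h7]
    exact AlgEquiv.apply_symm_apply σ x

end Pool.Agent.DI.H3
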