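import Pool.Agent.Lib.DI.H3.Spec

set_option autoImplicit false

/-!
# Theorem DI, part H3: good points for `Theta`
-/

open scoped Pointwise nonZeroDivisors

noncomputable section

namespace Pool.Agent.DI.H3

open Pool.Agent.MuZ Pool.Agent.FW Pool.Agent.DI NumberField IsDedekindDomain

namespace GdAux

private theorem odd_mul {a b : ℤ} (ha : ¬ (2 : ℤ) ∣ a) (hb : ¬ (2 : ℤ) ∣ b) : ¬ (2 : ℤ) ∣ a * b :=
  fun h => (Int.prime_two.dvd_or_dvd h).elim ha hb

/-- a point `y / 2^N` with `Nm y` odd is not in the lattice -/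
private theorem not_lat (h1 : S_UNm) (h2 : S_UEx) {N : ℕ} (hN : 1 ≤ N) {y : OO}
    (hy : ¬ (2 : ℤ) ∣ Nm y) : ¬ Lat (toC y / ((2 ^ N : ℕ) : ℂ)) := by
  obtain ⟨-, -, -, -, -, -, -, -, -, -, -, hdiv, -⟩ := h2
  obtain ⟨hmul, -, -, hint, -⟩ := h1
  intro h
  have h3 := (hdiv y (2 ^ N) (by positivity)).1 h
  obtain ⟨c, hc⟩ := h3
  apply hy
  have h4 : ((2 ^ N : ℕ) : OO) = (((2 ^ N : ℕ) : ℤ) : OO) := by push_cast; rfl
  rw [hc, hmul, h4, hint]
  refine Dvd.dvd.mul_right ?_ _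
  have h5 : (2 : ℤ) ∣ ((2 ^ N : ℕ) : ℤ) := by
    obtain ⟨M, rfl⟩ : ∃ M, N = M + 1 := ⟨N - 1, by omega⟩
    push_cast
    exact ⟨2 ^ M, by ring⟩
  exact h5.mul_right _ |>.trans (by rw [sq])

end GdAux

theorem tGd (h1 : S_UNm) (h2 : S_UEx) (_h3 : S_UCop) : S_hGd := by
  intro f N μ x la j hf hN hμ hx hla
  have hUN := h1
  have hUE := h2
  obtain ⟨hmul, -, hN0, -, -, -, -, -, hinj, -⟩ := hUN
  obtain ⟨-, -, -, -, hTadd, -, hLT, hTdiv, hLadd, hLmul, hL0, -, -⟩ := hUE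
  have hf0 : (f : ℂ) ≠ 0 := by
    obtain ⟨k, hk⟩ := hf
    rw [hk]; exact_mod_cast (Nat.succ_ne_zero (2 * k))
  have h20 : ((2 ^ N : ℕ) : ℂ) ≠ 0 := by push_cast; exact pow_ne_zero _ two_ne_zero
  have hla0 : la ≠ 0 := by
    rintro rfl
    apply hla
    rw [(hN0 0).2 rfl]
    exact dvd_zero _
  have hlaC : toC la ≠ 0 := by
    intro h
    exact hla0 (hinj (by rw [h, map_zero]))
  have hodd : ¬ (2 : ℤ) ∣ Nm (la * μ * x) := by
    rw [hmul, hmul]
    exact GdAux.odd_mul (GdAux.odd_mul hla hμ) hx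
  have hkey := GdAux.not_lat h1 h2 hN hodd
  have hTz : Tor (Tz f N x) := by
    refine ⟨x, f * 2 ^ N, ?_, rfl⟩
    obtain ⟨k, hk⟩ := hf
    rw [hk]; positivity
  have hTp : ∀ i : ℕ, Tor (pL la i) := by
    intro i
    refine hTdiv la _ hla0 ⟨(i : OO), ?_⟩
    unfold pL
    rw [map_natCast]
    field_simp
  -- the computation
  have hz : ∀ (i : ℕ) (u : ℂ), Lat (toC μ * u) → ∃ w w' : ℂ, Lat w ∧ Lat w' ∧
      toC ((f : OO) * la * μ) * (Tz f N x + pL la i + u) =
        toC (la * μ * x) / ((2 ^ N : ℕ) : ℂ) + w ∧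
      toC ((2 : OO) ^ N * ((f : OO) * la * μ)) * (Tz f N x + pL la i + u) = w' := by
    intro i u hu
    have e1 : toC ((f : OO) * la * μ) * (Tz f N x + pL la i + u) =
        toC (la * μ * x) / ((2 ^ N : ℕ) : ℂ) + (toC ((f : OO) * μ * i) +
          toC ((f : OO) * la) * (toC μ * u)) := by
      unfold Tz pL
      simp only [map_mul, map_natCast]
      push_cast at h20 ⊢
      field_simp
      ring
    have hw : Lat (toC ((f : OO) * μ * i) + toC ((f : OO) * la) * (toC μ * u)) :=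
      (hLadd _ _ ⟨_, rfl⟩ (hLmul _ _ hu)).1
    refine ⟨_, _, hw, ?_, e1, rfl⟩
    have e2 : toC ((2 : OO) ^ N * ((f : OO) * la * μ)) * (Tz f N x + pL la i + u) =
        toC (la * μ * x) + toC ((2 : OO) ^ N) * (toC ((f : OO) * μ * i) +
          toC ((f : OO) * la) * (toC μ * u)) := by
      rw [map_mul, mul_assoc, e1, mul_add]
      congr 1
      rw [map_pow, map_ofNat]
      push_cast at h20 ⊢
      field_simp
    rw [e2]
    exact (hLadd _ _ ⟨_, rfl⟩ (hLmul _ _ hw)).1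
  have hgd : ∀ i : ℕ, Gd μ (Tz f N x + pL la i) := by
    intro i
    refine ⟨(hTadd _ _ hTz (hTp i)).1, ?_⟩
    intro Q hQ hQ2 u hu hq
    have : Q.IsPrime := hQ.1
    obtain ⟨w, w', hw, hw', e1, e2⟩ := hz i u hu
    have hα : ¬ MP Q (toO ((2 : OO) ^ N)) := by
      intro h
      rw [map_pow] at h
      have h4 := MP.of_pow h
      rw [map_ofNat] at h4
      exact hQ2 h4
    have h5 := hq _ _ hα (by rw [e2]; exact hw')
    rw [e1] at h5
    apply hkey
    have h6 := (hLadd _ _ h5 hw).2.1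
    rwa [add_sub_cancel_right] at h6
  have hp0 : pL la 0 = 0 := by
    unfold pL
    rw [Nat.cast_zero, zero_div]
  have hlat : ¬ Lat (toC (la * μ) * Tz f N x) := by
    intro h
    apply hkey
    have h4 := hLmul (f : OO) _ h
    have e : toC (f : OO) * (toC (la * μ) * Tz f N x) =
        toC (la * μ * x) / ((2 ^ N : ℕ) : ℂ) := by
      unfold Tz
      simp only [map_mul, map_natCast]
      push_cast at h20 ⊢
      field_simp
    rwa [e] at h4
  refine ⟨hgd j, ?_, hlat, ?_⟩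
  · have := hgd 0
    rwa [hp0, add_zero] at this
  · intro h
    apply hlat
    have e : toC (la * μ) * (Tz f N x + pL la j) = toC (la * μ) * Tz f N x + toC (μ * j) := by
      unfold pL
      simp only [map_mul, map_natCast]
      field_simp
    rw [e] at h
    have h6 := (hLadd _ _ h (⟨μ * j, rfl⟩ : Lat (toC (μ * j)))).2.1
    rwa [add_sub_cancel_right] at h6

end Pool.Agent.DI.H3
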