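import Pool.Agent.Lib.DI.H3.Spec

/-! # Theorem DI, part H3, module Hom: the quadratic character `h` -/

set_option autoImplicit false

open scoped Pointwise nonZeroDivisors

noncomputable section

namespace Pool.Agent.DI.H3

open Pool.Agent.MuZ Pool.Agent.FW Pool.Agent.DI NumberField IsDedekindDomain

namespace HomAux

/-- The field generated by the coordinates of the `l`-torsion points. -/
def EE (l : ℕ) : IntermediateField ℚ Om :=
  IntermediateField.adjoin ℚ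
    ((Set.range fun v : Fin l × Fin l => xO (toC ⟨(v.1 : ℕ), (v.2 : ℕ)⟩ / l)) ∪
      Set.range fun v : Fin l × Fin l => yO (toC ⟨(v.1 : ℕ), (v.2 : ℕ)⟩ / l))

theorem isOpen_EE (l : ℕ) : IsOpen ((EE l).fixingSubgroup : Set Gal(Om/ℚ)) := by
  have hf : FiniteDimensional ℚ (EE l) :=
    IntermediateField.finiteDimensional_adjoin fun x _ => Algebra.IsIntegral.isIntegral x
  exact IntermediateField.fixingSubgroup_isOpen (EE l)

theorem red (l : ℕ) (hl : 0 < l) (v : OO) : ∃ (i j : Fin l) (u : OO),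
    toC v / l = toC ⟨(i : ℕ), (j : ℕ)⟩ / l + toC u := by
  have hl' : (l : ℤ) ≠ 0 := by exact_mod_cast hl.ne'
  have hlC : (l : ℂ) ≠ 0 := by exact_mod_cast hl.ne'
  have hp : (0 : ℤ) < l := by exact_mod_cast hl
  have key : ∀ a : ℤ, ∃ (i : Fin l) (b : ℤ), a = (i : ℕ) + l * b := by
    intro a
    have h1 := Int.emod_nonneg a hl'
    have h2 := Int.emod_lt_of_pos a hp
    refine ⟨⟨(a % l).toNat, by omega⟩, a / l, ?_⟩
    have h3 := Int.emod_add_mul_ediv a l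
    simp only
    rw [Int.toNat_of_nonneg h1]
    linarith
  obtain ⟨i, b, hi⟩ := key v.re
  obtain ⟨j, c, hj⟩ := key v.im
  refine ⟨i, j, ⟨b, c⟩, ?_⟩
  rw [toC_apply, toC_apply, toC_apply, hi, hj]
  push_cast
  field_simp
  ring

theorem psi_one (h2 : S_B2) {l : ℕ} (hl : 0 < l) {τ : Gal(Om/ℚ)} (hτ : τ ∈ (EE l).fixingSubgroup) :
    Psi τ l 1 := by
  have hx : ∀ (z : ℂ) (u : OO), xO (z + toC u) = xO z := fun z u => by
    unfold xO
    rw [(h2.1 z u).1]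
  have hy : ∀ (z : ℂ) (u : OO), yO (z + toC u) = yO z := fun z u => by
    unfold yO
    rw [(h2.1 z u).2.1]
  rw [IntermediateField.mem_fixingSubgroup_iff] at hτ
  refine ⟨?_, fun v => ?_⟩
  · have h3 : Nm (1 : OO) = 1 := by
      have h4 : (1 : OO).re = 1 := rfl
      have h5 : (1 : OO).im = 0 := rfl
      simp [Nm, h4, h5]
    unfold Cop
    rw [h3]
    exact isCoprime_one_left
  · rw [one_mul]
    obtain ⟨i, j, u, h3⟩ := red l hl v
    rw [h3, hx, hy]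
    refine ⟨hτ _ (IntermediateField.subset_adjoin ℚ _ (Or.inl ⟨(i, j), rfl⟩)),
      hτ _ (IntermediateField.subset_adjoin ℚ _ (Or.inr ⟨(i, j), rfl⟩))⟩

theorem psi_mul (h5 : S_UCop) {l : ℕ} {τ σ : Gal(Om/ℚ)} {a b : OO} (ha : Psi τ l a)
    (hb : Psi σ l b) : Psi (τ * σ) l (a * b) := by
  refine ⟨(h5.2.1 a b l).2 ⟨ha.1, hb.1⟩, fun v => ?_⟩
  rw [AlgEquiv.mul_apply, AlgEquiv.mul_apply, (hb.2 v).1, (hb.2 v).2, (ha.2 (b * v)).1,
    (ha.2 (b * v)).2, mul_assoc]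
  exact ⟨rfl, rfl⟩

end HomAux

open HomAux in
theorem tHom (h1 : S_E1) (h2 : S_B2) (h3 : S_hFix) (h4 : S_hRdm) (h5 : S_UCop) : S_hHom := by
  classical
  intro f N l la r D
  obtain ⟨m1, m2, m3, m4, m5, m6, m7, -, m9, -⟩ := h4 f l la r D
  have hl : 0 < l := D.hl.pos
  have hGK : ∀ τ ∈ (Ln f N).fixingSubgroup, τ ∈ GK := fun τ hτ =>
    (((h3.1 f N D.hf D.h7).2.1 τ).1 hτ).1
  have hex : ∀ τ ∈ (Ln f N).fixingSubgroup, ∃ a, Psi τ l a := fun τ hτ =>
    h1.1 τ (hGK τ hτ) l hl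
  have hrd : ∀ (τ : Gal(Om/ℚ)) (a a' : OO), Psi τ l a → Psi τ l a' → rd r a = rd r a' := by
    intro τ a a' ha ha'
    obtain ⟨y, hy⟩ := h1.2 τ l a a' hl ha ha'
    have h6 : rd r (a - a') = 0 := by
      rw [hy, m1, m5]
      simp
    rw [m3] at h6
    exact sub_eq_zero.1 h6
  obtain ⟨hh, hdef⟩ : ∃ hh : Gal(Om/ℚ) → ZMod 2, hh = fun τ =>
    if τ ∈ (Ln f N).fixingSubgroup ∧ ¬ ∃ a, Psi τ l a ∧ IsSquare (rd r a) then 1 else 0 := ⟨_, rfl⟩
  have hval : ∀ τ ∈ (Ln f N).fixingSubgroup, ∀ a, Psi τ l a →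
      hh τ = if IsSquare (rd r a) then 0 else 1 := by
    intro τ hτ a ha
    have e1 : hh τ = if τ ∈ (Ln f N).fixingSubgroup ∧ ¬ ∃ a, Psi τ l a ∧ IsSquare (rd r a) then 1
      else 0 := by rw [hdef]
    by_cases hs : IsSquare (rd r a)
    · have e2 : ¬ (τ ∈ (Ln f N).fixingSubgroup ∧ ¬ ∃ a, Psi τ l a ∧ IsSquare (rd r a)) :=
        fun h => h.2 ⟨a, ha, hs⟩
      rw [e1, if_neg e2, if_pos hs]
    · have e2 : τ ∈ (Ln f N).fixingSubgroup ∧ ¬ ∃ a, Psi τ l a ∧ IsSquare (rd r a) := by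
        refine ⟨hτ, ?_⟩
        rintro ⟨a', ha', hs'⟩
        rw [hrd τ a' a ha' ha] at hs'
        exact hs hs'
      rw [e1, if_pos e2, if_neg hs]
  refine ⟨hh, ⟨?_, ?_, ?_, ?_⟩, ?_⟩
  · intro g hg
    rw [hdef]
    exact if_neg fun h => hg h.1
  · intro g hg k hk
    obtain ⟨a, ha⟩ := hex g hg
    obtain ⟨b, hb⟩ := hex k hk
    have h9 := m9 (rd r a) (rd r b) (m7 a ha.1) (m7 b hb.1)
    rw [hval g hg a ha, hval k hk b hb, hval (g * k) (mul_mem hg hk) (a * b) (psi_mul h5 ha hb), m1]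
    by_cases hs : IsSquare (rd r a) <;> by_cases hs' : IsSquare (rd r b)
    · rw [if_pos (h9.2 (by simp [hs, hs'])), if_pos hs, if_pos hs', add_zero]
    · rw [if_neg (fun h => by
        have := h9.1 h
        exact hs' (this.1 hs)), if_pos hs, if_neg hs', zero_add]
    · rw [if_neg (fun h => by
        have := h9.1 h
        exact hs (this.2 hs')), if_neg hs, if_pos hs', add_zero]
    · rw [if_pos (h9.2 (by simp [hs, hs'])), if_neg hs, if_neg hs']
      decide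
  · refine ⟨⟨(EE l).fixingSubgroup, isOpen_EE l⟩, fun g hg hgE => ?_⟩
    rw [hval g hg 1 (psi_one h2 hl hgE), m6, if_pos ⟨1, by simp⟩]
  · intro Λ hΛ
    exact absurd hΛ (Set.notMem_empty Λ)
  · intro τ hτ M a hM hlM ha
    obtain ⟨k, rfl⟩ := hlM
    have hk : 0 < k := Nat.pos_of_ne_zero (by
      rintro rfl
      simp at hM)
    rw [hval τ hτ a (h3.2 τ l k a hl hk ha)]
    by_cases hs : IsSquare (rd r a)
    · simp [hs]
    · simp [hs]

end Pool.Agent.DI.H3
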