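import Pool.Agent.Lib.DI.H3.Spec
import Pool.Agent.Lib.FW.G.Rm
import Pool.Agent.Lib.FW.G.Ine

set_option autoImplicit false

/-!
# Theorem DI, part H3: `K(√λ)/K` is ramified over `λ`
-/

open scoped Pointwise nonZeroDivisors

noncomputable section

namespace Pool.Agent.DI.H3

open Pool.Agent.MuZ Pool.Agent.FW Pool.Agent.DI NumberField IsDedekindDomain

theorem tInr (h1 : S_hNmK) : S_hInr := by
  intro l la hl hl2 hNm P hP hlP hla
  by_contra hcon
  have hfix : ∀ ι ∈ P.inertia Gal(Om/ℚ), ι ∈ KQ.fixingSubgroup →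
      ι (sqr (toO la)) = sqr (toO la) := by
    intro ι hι hG
    by_contra hne
    exact hcon ⟨ι, hι, hG, hne⟩
  obtain ⟨hnf, b, hb, hbp, hcomap⟩ := h1 l la hl hNm
  have hPp : P.IsPrime := hP.1
  have hc := hcomap P hPp hla
  -- `b ≠ 0`
  have hb0 : b ≠ 0 := by
    intro h
    have h2 : (l : 𝓞 KQ) ∈ P.comap (iO KQ) := by
      rw [Ideal.mem_comap, map_natCast]
      exact hlP
    rw [hc, h, Ideal.span_singleton_eq_bot.2 rfl, Ideal.mem_bot, Nat.cast_eq_zero] at h2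
    exact hl.ne_zero h2
  have ht0 : toO la ≠ 0 := by
    rw [← hb]
    intro h
    apply hb0
    apply RingOfIntegers.ext
    exact Subtype.ext h
  have hs0 : sqr (toO la) ≠ 0 := by
    intro h
    have h2 := sqr_sq (toO la)
    rw [h, zero_pow (by norm_num)] at h2
    exact ht0 h2.symm
  have h2P : ((2 : ℕ) : ZZ) ∉ P := by
    intro h2
    have hcop : Nat.Coprime l 2 := (Nat.coprime_primes hl Nat.prime_two).2 hl2
    obtain ⟨u, v, huv⟩ := Nat.isCoprime_iff_coprime.2 hcop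
    apply hPp.one_notMem
    have h3 : ((u : ZZ) * (l : ZZ) + (v : ZZ) * ((2 : ℕ) : ZZ)) = 1 := by
      have := congrArg (Int.cast : ℤ → ZZ) huv
      push_cast at this ⊢
      exact this
    rw [← h3]
    exact P.add_mem (P.mul_mem_left _ hlP) (P.mul_mem_left _ h2)
  have hζ : IsPrimitiveRoot (-1 : Om) 2 := IsPrimitiveRoot.neg_one 0 (by norm_num)
  let w : HeightOneSpectrum (𝓞 KQ) := ⟨Ideal.span {b}, hbp, fun h => hb0 (Ideal.span_singleton_eq_bot.1 h)⟩
  have hdvd := tRm tIne 2 KQ (-1) (sqr (toO la)) hζ (neg_mem (one_mem _)) hs0 (b : KQ)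
    (hb.trans (sqr_sq (toO la)).symm) P hPp h2P hfix w hc.symm
  have h3 : FractionalIdeal.spanSingleton (𝓞 KQ)⁰ ((b : 𝓞 KQ) : KQ) =
      ((w.asIdeal : Ideal (𝓞 KQ)) : FractionalIdeal (𝓞 KQ)⁰ KQ) :=
    (FractionalIdeal.coeIdeal_span_singleton b).symm
  rw [h3, FractionalIdeal.count_self] at hdvd
  revert hdvd
  decide

end Pool.Agent.DI.H3
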