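import Pool.Agent.Lib.DI.H3.Spec

/-!
# Permutation of the squares and nonsquares modulo `l`
-/

namespace Pool.Agent.DI.H3

open Pool.Agent.MuZ Pool.Agent.FW Pool.Agent.DI NumberField IsDedekindDomain
open scoped Pointwise nonZeroDivisors

namespace JPAux

theorem mem_Sqs {l j : ℕ} : j ∈ Sqs l ↔ j < l ∧ (j : ZMod l) ≠ 0 ∧ IsSquare (j : ZMod l) := by
  classical
  unfold Sqs
  rw [Finset.mem_filter, Finset.mem_range]

theorem mem_Nsq {l j : ℕ} : j ∈ Nsq l ↔ j < l ∧ ¬ IsSquare (j : ZMod l) := by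
  classical
  unfold Nsq
  rw [Finset.mem_filter, Finset.mem_range]

/-- The general permutation lemma. -/
theorem perm {l : ℕ} (hl : l.Prime) (x : ZMod l) (hx : x ≠ 0) (G : ℕ → Om) (A B : Finset ℕ)
    (hA : ∀ j ∈ A, j < l) (hB : ∀ j ∈ B, j < l)
    (hAB : ∀ j ∈ A, (x * (j : ZMod l)).val ∈ B) (hBA : ∀ j ∈ B, (x⁻¹ * (j : ZMod l)).val ∈ A) :
    ∏ j ∈ A, G ((x * (j : ZMod l)).val) = ∏ j ∈ B, G j := by
  haveI : Fact l.Prime := ⟨hl⟩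
  haveI : NeZero l := ⟨hl.ne_zero⟩
  refine Finset.prod_bij' (fun j _ => (x * (j : ZMod l)).val) (fun j _ => (x⁻¹ * (j : ZMod l)).val)
    hAB hBA ?_ ?_ ?_
  · intro j hj
    show (x⁻¹ * (((x * (j : ZMod l)).val : ℕ) : ZMod l)).val = j
    rw [ZMod.natCast_zmod_val, ← mul_assoc, inv_mul_cancel₀ hx, one_mul, ZMod.val_cast_of_lt (hA j hj)]
  · intro j hj
    show (x * (((x⁻¹ * (j : ZMod l)).val : ℕ) : ZMod l)).val = j
    rw [ZMod.natCast_zmod_val, ← mul_assoc, mul_inv_cancel₀ hx, one_mul, ZMod.val_cast_of_lt (hB j hj)]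
  · intro j hj
    rfl

end JPAux

open JPAux

/-- **Permutation of the squares and nonsquares.** -/
theorem tJP (h1 : S_hRdm) : S_hJP := by
  intro f l la r hd x G hx
  obtain ⟨-, -, -, -, -, -, -, -, hq, -⟩ := h1 f l la r hd
  have hl : l.Prime := hd.hl
  haveI : Fact l.Prime := ⟨hl⟩
  haveI : NeZero l := ⟨hl.ne_zero⟩
  have hxi : x⁻¹ ≠ 0 := inv_ne_zero hx
  have hsi : IsSquare x⁻¹ ↔ IsSquare x := isSquare_inv
  -- membership of the images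
  have hSS : ∀ y : ZMod l, y ≠ 0 → IsSquare y → ∀ j ∈ Sqs l, (y * (j : ZMod l)).val ∈ Sqs l := by
    intro y hy hs j hj
    obtain ⟨_, hj0, hjs⟩ := mem_Sqs.1 hj
    rw [mem_Sqs, ZMod.natCast_zmod_val]
    exact ⟨ZMod.val_lt _, mul_ne_zero hy hj0, (hq y j hy hj0).2 ⟨fun _ => hjs, fun _ => hs⟩⟩
  have hN0 : ∀ j ∈ Nsq l, (j : ZMod l) ≠ 0 := by
    intro j hj h0
    exact (mem_Nsq.1 hj).2 (h0 ▸ IsSquare.zero)
  have hNN : ∀ y : ZMod l, y ≠ 0 → IsSquare y → ∀ j ∈ Nsq l, (y * (j : ZMod l)).val ∈ Nsq l := by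
    intro y hy hs j hj
    obtain ⟨_, hjs⟩ := mem_Nsq.1 hj
    rw [mem_Nsq, ZMod.natCast_zmod_val]
    exact ⟨ZMod.val_lt _, fun h => hjs (((hq y j hy (hN0 j hj)).1 h).1 hs)⟩
  have hSN : ∀ y : ZMod l, y ≠ 0 → ¬ IsSquare y → ∀ j ∈ Sqs l, (y * (j : ZMod l)).val ∈ Nsq l := by
    intro y hy hs j hj
    obtain ⟨_, hj0, hjs⟩ := mem_Sqs.1 hj
    rw [mem_Nsq, ZMod.natCast_zmod_val]
    exact ⟨ZMod.val_lt _, fun h => hs (((hq y j hy hj0).1 h).2 hjs)⟩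
  have hNS : ∀ y : ZMod l, y ≠ 0 → ¬ IsSquare y → ∀ j ∈ Nsq l, (y * (j : ZMod l)).val ∈ Sqs l := by
    intro y hy hs j hj
    obtain ⟨_, hjs⟩ := mem_Nsq.1 hj
    rw [mem_Sqs, ZMod.natCast_zmod_val]
    exact ⟨ZMod.val_lt _, mul_ne_zero hy (hN0 j hj),
      (hq y j hy (hN0 j hj)).2 ⟨fun h => absurd h hs, fun h => absurd h hjs⟩⟩
  have lS : ∀ j ∈ Sqs l, j < l := fun j hj => (mem_Sqs.1 hj).1
  have lN : ∀ j ∈ Nsq l, j < l := fun j hj => (mem_Nsq.1 hj).1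
  refine ⟨fun hs => ?_, fun hs => ?_, fun hs => ?_, fun hs => ?_⟩
  · exact perm hl x hx G _ _ lS lS (hSS x hx hs) (hSS _ hxi (hsi.2 hs))
  · exact perm hl x hx G _ _ lN lN (hNN x hx hs) (hNN _ hxi (hsi.2 hs))
  · exact perm hl x hx G _ _ lS lN (hSN x hx hs) (hNS _ hxi (fun h => hs (hsi.1 h)))
  · exact perm hl x hx G _ _ lN lS (hNS x hx hs) (hSN _ hxi (fun h => hs (hsi.1 h)))

end Pool.Agent.DI.H3
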