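import Pool.Agent.Lib.DI.H3.Spec

set_option autoImplicit false

/-!
# Theorem DI, part H3: the prime element `λ`
-/

open scoped Pointwise nonZeroDivisors

noncomputable section

namespace Pool.Agent.DI.H3

open Pool.Agent.MuZ Pool.Agent.FW Pool.Agent.DI NumberField IsDedekindDomain

namespace LaAux

theorem wO_int : IsIntegral ℤ wO := by
  refine ⟨Polynomial.X ^ 2 - Polynomial.X + Polynomial.C 2, ?_, ?_⟩
  · have h : (Polynomial.X ^ 2 - Polynomial.X + Polynomial.C 2 : Polynomial ℤ) =
        Polynomial.X ^ 2 + (-Polynomial.X + Polynomial.C 2) := by ring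
    rw [h]
    apply Polynomial.monic_X_pow_add
    compute_degree
    norm_num
  · simp only [Polynomial.eval₂_add, Polynomial.eval₂_sub, Polynomial.eval₂_pow,
      Polynomial.eval₂_X, Polynomial.eval₂_C, wO_sq]
    simp

/-- The elements `y` of a domain of characteristic `l` with `y ^ l = y` are in the prime field. -/
theorem pf {A : Type} [CommRing A] [IsDomain A] (l : ℕ) [Fact l.Prime] [CharP A l] (y : A)
    (hy : y ^ l = y) : ∃ a : ZMod l, ZMod.castHom (dvd_refl l) A a = y := by
  classical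
  have hφ : Function.Injective (ZMod.castHom (dvd_refl l) A) :=
    (ZMod.castHom (dvd_refl l) A).injective
  have hl : 1 < l := (Fact.out : l.Prime).one_lt
  have hdeg : (Polynomial.X ^ l - Polynomial.X : Polynomial A).natDegree = l := by
    rw [Polynomial.natDegree_sub_eq_left_of_natDegree_lt, Polynomial.natDegree_X_pow]
    rw [Polynomial.natDegree_X_pow, Polynomial.natDegree_X]
    exact hl
  have hp0 : (Polynomial.X ^ l - Polynomial.X : Polynomial A) ≠ 0 := by
    intro h
    rw [h, Polynomial.natDegree_zero] at hdeg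
    omega
  have hsub : Finset.univ.image (ZMod.castHom (dvd_refl l) A) ⊆
      (Polynomial.X ^ l - Polynomial.X : Polynomial A).roots.toFinset := by
    intro x hx
    obtain ⟨a, _, rfl⟩ := Finset.mem_image.1 hx
    rw [Multiset.mem_toFinset, Polynomial.mem_roots hp0, Polynomial.IsRoot.def,
      Polynomial.eval_sub, Polynomial.eval_pow, Polynomial.eval_X, ← map_pow, ZMod.pow_card,
      sub_self]
  have hcard : (Polynomial.X ^ l - Polynomial.X : Polynomial A).roots.toFinset.card ≤
      (Finset.univ.image (ZMod.castHom (dvd_refl l) A)).card := by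
    rw [Finset.card_image_of_injective _ hφ, Finset.card_univ, ZMod.card]
    exact (Multiset.toFinset_card_le _).trans ((Polynomial.card_roots' _).trans hdeg.le)
  have heq := Finset.eq_of_subset_of_card_le hsub hcard
  have hy' : y ∈ (Polynomial.X ^ l - Polynomial.X : Polynomial A).roots.toFinset := by
    rw [Multiset.mem_toFinset, Polynomial.mem_roots hp0, Polynomial.IsRoot.def,
      Polynomial.eval_sub, Polynomial.eval_pow, Polynomial.eval_X, hy, sub_self]
  rw [← heq] at hy'
  obtain ⟨a, _, ha⟩ := Finset.mem_image.1 hy'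
  exact ⟨a, ha⟩

end LaAux

open LaAux

theorem tLa (h1 : S_UNm) (h2 : S_UPid) : S_hLa := by
  intro l hl Q hQ hlQ τ hτ hfr
  obtain ⟨hmul, hnn, hzero, hint, hcj, -, -, -, -, -, -, hunit⟩ := h1
  obtain ⟨hdom, hpid, -⟩ := h2
  have hQ1 : Q.IsPrime := hQ.1
  have : Fact l.Prime := ⟨hl⟩
  have hD : IsDomain (ZZ ⧸ Q) := Ideal.Quotient.isDomain Q
  have hl0 : ((l : ℕ) : ZZ ⧸ Q) = 0 := by
    rw [← map_natCast (Ideal.Quotient.mk Q)]
    exact Ideal.Quotient.eq_zero_iff_mem.2 hlQ
  have hchar : CharP (ZZ ⧸ Q) l := (CharP.charP_iff_prime_eq_zero hl).2 hl0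
  set wZ : ZZ := ⟨wO, wO_int⟩ with hwZdef
  have hwZ : wZ ^ 2 = wZ - 2 := Subtype.ext wO_sq
  have hfix : τ • wZ = wZ := by
    apply Subtype.ext
    rw [smul_coe]
    have h3 : wO ∈ KQ := IntermediateField.mem_adjoin_simple_self ℚ wO
    exact (IntermediateField.mem_fixingSubgroup_iff KQ τ).1 hτ wO h3
  have hy : (Ideal.Quotient.mk Q wZ) ^ l = Ideal.Quotient.mk Q wZ := by
    have h3 := hfr wZ
    rw [hfix] at h3
    have h4 := Ideal.Quotient.eq_zero_iff_mem.2 h3
    rw [map_sub, map_pow, sub_eq_zero] at h4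
    exact h4.symm
  obtain ⟨r, hr⟩ := pf l (Ideal.Quotient.mk Q wZ) hy
  set φ : ZMod l →+* ZZ ⧸ Q := ZMod.castHom (dvd_refl l) (ZZ ⧸ Q) with hφ
  have hφi : Function.Injective φ := φ.injective
  have hr2 : r ^ 2 = r - 2 := by
    apply hφi
    rw [map_pow, map_sub, hr, map_ofNat, ← map_pow, hwZ, map_sub, map_ofNat]
  -- the reduction
  have hmk : ∀ x : OO, Ideal.Quotient.mk Q ((x.re : ZZ) + (x.im : ZZ) * wZ) = φ (rd r x) := by
    intro x
    unfold rd
    rw [map_add, map_mul, map_add, map_mul, hr, map_intCast, map_intCast, map_intCast,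
      map_intCast]
  have hMP : ∀ x : OO, MP Q (toO x) ↔ rd r x = 0 := by
    intro x
    have h3 : toO x = (((x.re : ZZ) + (x.im : ZZ) * wZ : ZZ) : Om) := by
      push_cast
      rfl
    rw [h3, MP.coe_iff, ← Ideal.Quotient.eq_zero_iff_mem, hmk, map_eq_zero_iff φ hφi]
  have hev : ∀ x : OO, evO r hr2 x = rd r x := fun _ => rfl
  -- the generator
  obtain ⟨la, hla⟩ := (hpid.principal (RingHom.ker (evO r hr2))).principal
  have hker : ∀ x : OO, rd r x = 0 ↔ la ∣ x := by
    intro x
    rw [← hev, ← RingHom.mem_ker, hla]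
    exact Ideal.mem_span_singleton
  have hlO : la ∣ ((l : ℤ) : OO) := by
    rw [← hker]
    unfold rd
    rw [QuadraticAlgebra.re_intCast, QuadraticAlgebra.im_intCast]
    simp
  have hone : ¬ la ∣ 1 := by
    rw [← hker, ← hev, map_one]
    exact one_ne_zero
  have hl2 : (2 : ℤ) ≤ l := by exact_mod_cast hl.two_le
  obtain ⟨u, hu⟩ := hlO
  have hN : (l : ℤ) ^ 2 = Nm la * Nm u := by
    rw [← hmul, ← hu, hint]
  have hNla : Nm la = l := by
    have h3 : (Nm la).natAbs ∣ l ^ 2 := by
      have h4 : Nm la ∣ ((l ^ 2 : ℕ) : ℤ) := ⟨Nm u, by push_cast; exact hN⟩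
      have h5 := Int.natAbs_dvd_natAbs.2 h4
      rwa [Int.natAbs_natCast] at h5
    have hab : ((Nm la).natAbs : ℤ) = Nm la := Int.natAbs_of_nonneg (hnn la)
    obtain ⟨k, hk, hk'⟩ := (Nat.dvd_prime_pow hl).1 h3
    rw [hk'] at hab
    interval_cases k
    · exfalso
      apply hone
      refine ⟨cjO la, ?_⟩
      rw [← hcj, ← hab]
      simp
    · rw [← hab]
      simp
    · exfalso
      have h6 : Nm u = 1 := by
        rw [← hab] at hN
        push_cast at hN
        have h7 : (l : ℤ) ^ 2 ≠ 0 := by positivity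
        have h8 : (l : ℤ) ^ 2 * Nm u = (l : ℤ) ^ 2 * 1 := by rw [← hN, mul_one]
        exact mul_left_cancel₀ h7 h8
      have h7 : u * cjO u = 1 := by
        rw [← hcj, h6]
        simp
      have h8 : la ∣ (⟨-(r.val : ℤ), 1⟩ : OO) := by
        rw [← hker]
        unfold rd
        simp
      obtain ⟨z, hz⟩ := h8
      have h9 : (⟨-(r.val : ℤ), 1⟩ : OO) = ((l : ℤ) : OO) * (cjO u * z) := by
        rw [hz, hu]
        linear_combination (-la * z) * h7
      have h10 := congrArg QuadraticAlgebra.im h9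
      rw [QuadraticAlgebra.im_mul, QuadraticAlgebra.re_intCast, QuadraticAlgebra.im_intCast] at h10
      simp only [zero_mul, mul_zero, add_zero] at h10
      have h11 : (l : ℤ) ∣ 1 := ⟨_, h10⟩
      have h12 := Int.le_of_dvd one_pos h11
      omega
  exact ⟨la, r, hNla, hr2, hker, fun x => (hMP x).trans (hker x)⟩

end Pool.Agent.DI.H3
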