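import Pool.Agent.Lib.DI.H3.Spec

set_option autoImplicit false

/-!
# Theorem DI, part H3, module `Lat`: the points `j / λ`
-/

open scoped Pointwise nonZeroDivisors

noncomputable section

namespace Pool.Agent.DI.H3

open Pool.Agent.MuZ Pool.Agent.FW Pool.Agent.DI NumberField IsDedekindDomain

namespace LatAux

/-- `toC` is injective. -/
theorem toC_inj {u v : OO} (h : toC u = toC v) : u = v := by
  have hs : (0 : ℝ) < √7 := Real.sqrt_pos.2 (by norm_num)
  have him : (u.im : ℝ) * (√7 / 2) = (v.im : ℝ) * (√7 / 2) := by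
    have h1 := congrArg Complex.im h
    simpa [toC_apply, wC] using h1
  have h2 : (u.im : ℝ) = v.im := mul_right_cancel₀ (by positivity) him
  have hre : (u.re : ℝ) + u.im * (1 / 2) = (v.re : ℝ) + v.im * (1 / 2) := by
    have h1 := congrArg Complex.re h
    simpa [toC_apply, wC] using h1
  have h3 : (u.re : ℝ) = v.re := by
    rw [h2] at hre
    linarith
  apply QuadraticAlgebra.ext
  · exact_mod_cast h3
  · exact_mod_cast h2

/-- The product of the values of `λ` and of its conjugate. -/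
theorem toC_mul {la : OO} {l : ℕ} (h : la * cjO la = (l : OO)) :
    toC la * toC (cjO la) = (l : ℂ) := by
  rw [← map_mul, h, map_natCast]

theorem toC_ne {la : OO} {l : ℕ} (h : la * cjO la = (l : OO)) (hl : l ≠ 0) : toC la ≠ 0 := by
  intro h0
  have h1 := toC_mul h
  rw [h0, zero_mul] at h1
  exact hl (by exact_mod_cast h1.symm)

theorem mul_pL {la : OO} (h : toC la ≠ 0) (j : ℕ) : toC la * pL la j = (j : ℂ) := by
  unfold pL
  field_simp

end LatAux

open LatAux

theorem tLat (h1 : S_hRdm) : S_hLat := by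
  intro f l la r hD
  obtain ⟨hmul, -, hsub, -, hnat, -, -, hcj, -⟩ := h1 f l la r hD
  have hl0 : l ≠ 0 := hD.hl.ne_zero
  have : NeZero l := ⟨hl0⟩
  have hlC : (l : ℂ) ≠ 0 := by exact_mod_cast hl0
  have hne : toC la ≠ 0 := toC_ne hcj hl0
  -- two natural numbers below `l` with the same point modulo `O`
  have huni : ∀ j j' : ℕ, j < l → j' < l → Lat (pL la j - pL la j') → j = j' := by
    intro j j' hj hj' ⟨v, hv⟩
    have e1 : toC ((j : OO) - (j' : OO)) = toC (la * v) := by
      rw [map_sub, map_natCast, map_natCast, map_mul, ← hv, mul_sub, mul_pL hne, mul_pL hne]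
    have e2 : (j : OO) - (j' : OO) = la * v := toC_inj e1
    have e3 : rd r ((j : OO) - (j' : OO)) = 0 := (hD.hker _).2 ⟨v, e2⟩
    rw [hsub, hnat, hnat, sub_eq_zero] at e3
    have e4 := (ZMod.natCast_eq_natCast_iff' j j' l).1 e3
    rwa [Nat.mod_eq_of_lt hj, Nat.mod_eq_of_lt hj'] at e4
  have hzero : pL la 0 = 0 := by simp [pL]
  have hfive : ∀ j : ℕ, pL la j = toC (j * cjO la) / l := by
    intro j
    have e1 := toC_mul hcj
    unfold pL
    rw [map_mul, map_natCast, div_eq_div_iff hne hlC, ← e1]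
    ring
  refine ⟨?_, ?_, ⟨?_, ?_, ?_⟩, ?_, hfive, ?_, ?_⟩
  · intro a j j' hj
    have e1 : rd r (a * (j : OO) - (j' : OO)) = 0 := by
      rw [hsub, hmul, hnat, hnat, hj, sub_self]
    obtain ⟨x, hx⟩ := (hD.hker _).1 e1
    refine ⟨x, ?_⟩
    have e2 : toC a * (j : ℂ) - (j' : ℂ) = toC la * toC x := by
      rw [← map_mul, ← hx, map_sub, map_mul, map_natCast, map_natCast]
    apply mul_left_cancel₀ hne
    rw [mul_add, mul_pL hne, ← e2, mul_left_comm, mul_pL hne]
    ring
  · intro j hj0 hj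
    refine ⟨⟨(j : OO), by rw [mul_pL hne, map_natCast]⟩, fun hL => ?_⟩
    have e1 : Lat (pL la j - pL la 0) := by rwa [hzero, sub_zero]
    have e2 := huni j 0 hj (Nat.pos_of_ne_zero hl0) e1
    omega
  · intro u hu
    obtain ⟨j, -, rfl⟩ := Finset.mem_image.1 hu
    exact ⟨(j : OO), by rw [mul_pL hne, map_natCast]⟩
  · intro z ⟨x, hx⟩
    have hlt : (rd r x).val < l := ZMod.val_lt _
    refine ⟨pL la (rd r x).val, Finset.mem_image.2 ⟨_, Finset.mem_range.2 hlt, rfl⟩, ?_⟩
    have e1 : rd r (x - ((rd r x).val : OO)) = 0 := by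
      rw [hsub, hnat, ZMod.natCast_zmod_val, sub_self]
    obtain ⟨y, hy⟩ := (hD.hker _).1 e1
    refine ⟨y, ?_⟩
    apply mul_left_cancel₀ hne
    rw [mul_sub, mul_pL hne, hx, ← map_mul, ← hy, map_sub, map_natCast]
  · intro u hu u' hu' hL
    obtain ⟨j, hj, rfl⟩ := Finset.mem_image.1 hu
    obtain ⟨j', hj', rfl⟩ := Finset.mem_image.1 hu'
    rw [huni j j' (Finset.mem_range.1 hj) (Finset.mem_range.1 hj') hL]
  · intro j hj j' hj' h
    refine huni j j' (by simpa using hj) (by simpa using hj') ⟨0, ?_⟩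
    rw [map_zero, sub_eq_zero]
    exact h
  · intro j
    exact ⟨_, l, Nat.pos_of_ne_zero hl0, hfive j⟩
  · intro j hj
    refine ⟨cjO la, ?_⟩
    apply mul_left_cancel₀ hne
    rw [mul_pL hne, mul_add, mul_neg, mul_pL hne, toC_mul hcj, Nat.cast_sub hj]
    ring

end Pool.Agent.DI.H3
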