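import Pool.Agent.Lib.DI.H3.Spec

set_option autoImplicit false

/-!
# Theorem DI, part H3, module Leg: the Legendre symbol of `u`
-/

open scoped Pointwise nonZeroDivisors

noncomputable section

namespace Pool.Agent.DI.H3

open Pool.Agent.MuZ Pool.Agent.FW Pool.Agent.DI NumberField IsDedekindDomain

namespace LegAux

theorem kap_zero_iff (u : Om) (d : Gal(Om/ℚ)) : kap u d = 0 ↔ d (sqr u) = sqr u := by
  unfold kap
  split_ifs with h
  · exact ⟨fun _ => h, fun _ => rfl⟩
  · exact ⟨fun h1 => absurd h1 one_ne_zero, fun h1 => absurd h1 h⟩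

theorem kap_one_of_ne (u : Om) (d : Gal(Om/ℚ)) (h : kap u d ≠ 0) : kap u d = 1 := by
  unfold kap at h ⊢
  split_ifs with h1
  · rw [if_pos h1] at h
    exact absurd rfl h
  · rfl

theorem kap_ext (u v : Om) (d e : Gal(Om/ℚ)) (h : d (sqr u) = sqr u ↔ e (sqr v) = sqr v) :
    kap u d = kap v e := by
  rcases eq_or_ne (kap u d) 0 with h1 | h1
  · rw [h1]
    exact ((kap_zero_iff v e).2 (h.1 ((kap_zero_iff u d).1 h1))).symm
  · have h2 : kap v e ≠ 0 := fun h3 => h1 ((kap_zero_iff u d).2 (h.2 ((kap_zero_iff v e).1 h3)))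
    rw [kap_one_of_ne u d h1, kap_one_of_ne v e h2]

theorem fix_neg (φ : Gal(Om/ℚ)) (t s : Om) (h : t = s ∨ t = -s) : φ t = t ↔ φ s = s := by
  rcases h with h | h
  · rw [h]
  · rw [h, map_neg]
    exact neg_inj

end LegAux

open LegAux in
theorem tLeg : S_hLeg := by
  refine ⟨?_, ?_⟩
  · intro l P u ψ hl hP hu hψu hψ
    have : P.IsPrime := hP.1
    have hs2 : sqr u ^ 2 = u := sqr_sq u
    have hs : UP P (sqr u) := UP.of_pow (n := 2) (by norm_num) (by rw [hs2]; exact hu)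
    have hψs : ψ (sqr u) = sqr u ∨ ψ (sqr u) = -sqr u := by
      refine sq_eq_sq_iff_eq_or_eq_neg.1 ?_
      rw [← map_pow, hs2, hψu]
    have hf : MP P (ψ (sqr u) - sqr u ^ l) := VP.frob hψ hs.1
    obtain ⟨m, hm⟩ := hl
    have hm2 : (l - 1) / 2 = m := by omega
    have hsl : sqr u ^ l = sqr u * u ^ m := by
      rw [hm, pow_succ, pow_mul, hs2, mul_comm]
    rw [hm2]
    rw [hsl] at hf
    have hs0 : sqr u ≠ 0 := hs.ne_zero
    refine ⟨fun h0 => ?_, fun h0 => ?_⟩
    · have h1 := (kap_zero_iff u ψ).1 h0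
      rw [h1] at hf
      have h2 := (MP.mul_left hs.inv.1 hf).neg
      have e : -((sqr u)⁻¹ * (sqr u - sqr u * u ^ m)) = u ^ m - 1 := by
        field_simp
        ring
      rw [e] at h2
      exact h2
    · have h1 : ψ (sqr u) = -sqr u := by
        rcases hψs with h1 | h1
        · exact absurd ((kap_zero_iff u ψ).2 h1) h0
        · exact h1
      rw [h1] at hf
      have h2 := (MP.mul_left hs.inv.1 hf).neg
      have e : -((sqr u)⁻¹ * (-sqr u - sqr u * u ^ m)) = u ^ m + 1 := by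
        field_simp
        ring
      rw [e] at h2
      exact h2
  · intro u σ φ _
    refine kap_ext _ _ _ _ ?_
    have h1 : (σ * φ * σ⁻¹) (sqr u) = sqr u ↔ φ (σ⁻¹ (sqr u)) = σ⁻¹ (sqr u) := by
      rw [AlgEquiv.mul_apply, AlgEquiv.mul_apply]
      constructor
      · intro h
        have h2 := congrArg (fun t => σ⁻¹ t) h
        change (σ⁻¹) (σ (φ (σ⁻¹ (sqr u)))) = σ⁻¹ (sqr u) at h2
        rw [← AlgEquiv.mul_apply σ⁻¹ σ, inv_mul_cancel, AlgEquiv.one_apply] at h2
        exact h2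
      · intro h
        rw [h, ← AlgEquiv.mul_apply σ σ⁻¹, mul_inv_cancel, AlgEquiv.one_apply]
    rw [h1]
    refine fix_neg φ _ _ ?_
    refine sq_eq_sq_iff_eq_or_eq_neg.1 ?_
    rw [← map_pow, sqr_sq, sqr_sq]

end Pool.Agent.DI.H3
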