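import Pool.Agent.Lib.DI.H3.Spec

set_option autoImplicit false

/-!
# Theorem DI, part H3: the prime `(λ)` of `K` (`S_hNmK`)
-/

namespace Pool.Agent.DI.H3

open Pool.Agent.MuZ Pool.Agent.FW Pool.Agent.DI NumberField IsDedekindDomain

open scoped Pointwise nonZeroDivisors

namespace NmKAux

open Polynomial in
/-- The norm of a root of `X ^ 2 - s X + n` (negative discriminant). -/
theorem norm_root (K : IntermediateField ℚ Om) (a : Om) (s n : ℚ)
    (hK : K = IntermediateField.adjoin ℚ {a}) (ha : a ^ 2 - s * a + n = 0)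
    (hd : ∀ t : ℚ, t ^ 2 - s * t + n ≠ 0) (b : K) (hb : (b : Om) = a) :
    Algebra.norm ℚ b = n := by
  subst hK
  have hint : IsIntegral ℚ a := (Algebra.IsAlgebraic.isAlgebraic a).isIntegral
  have hbg : b = IntermediateField.AdjoinSimple.gen ℚ a := by
    apply Subtype.ext
    rw [hb, IntermediateField.AdjoinSimple.coe_gen]
  have hdeg : (X ^ 2 - C s * X + C n : ℚ[X]).natDegree = 2 := by
    compute_degree!
  have hmon : (X ^ 2 - C s * X + C n : ℚ[X]).Monic := by
    monicity!
  have hirr : Irreducible (X ^ 2 - C s * X + C n : ℚ[X]) := by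
    apply Polynomial.irreducible_of_degree_le_three_of_not_isRoot
    · rw [hdeg]
      decide
    · intro t ht
      rw [Polynomial.IsRoot.def] at ht
      simp only [eval_add, eval_sub, eval_pow, eval_X, eval_mul, eval_C] at ht
      exact hd t ht
  have hev : aeval a (X ^ 2 - C s * X + C n : ℚ[X]) = 0 := by
    simp only [map_add, map_sub, map_pow, map_mul, aeval_X, aeval_C]
    exact ha
  have hmin : minpoly ℚ a = X ^ 2 - C s * X + C n :=
    (minpoly.eq_of_irreducible_of_monic hirr hev hmon).symm
  have h1 := Algebra.PowerBasis.norm_gen_eq_coeff_zero_minpoly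
    (IntermediateField.adjoin.powerBasis hint)
  rw [IntermediateField.adjoin.powerBasis_gen, IntermediateField.adjoin.powerBasis_dim, hmin, hdeg,
    IntermediateField.minpoly_gen, hmin] at h1
  have h2 : (-1) ^ 2 * (X ^ 2 - C s * X + C n : ℚ[X]).coeff 0 = n := by
    simp
  rw [hbg]
  convert h1.trans h2
  · rfl
  · exact Subsingleton.elim _ _

end NmKAux

theorem tNmK : S_hNmK := by
  intro l la hl hla
  have hNF : NumberField KQ := numberField_adjoin wO
  have hw : wO ∈ KQ := IntermediateField.mem_adjoin_simple_self ℚ wO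
  have hwI : IsIntegral ℤ wO := by
    refine ⟨Polynomial.X ^ 2 - Polynomial.X + Polynomial.C 2, ?_, ?_⟩
    · monicity!
    · simp only [Polynomial.eval₂_add, Polynomial.eval₂_sub, Polynomial.eval₂_pow,
        Polynomial.eval₂_X, Polynomial.eval₂_C, wO_sq]
      simp
  have htoO : toO la = (la.re : Om) + la.im * wO := rfl
  have hmem : toO la ∈ KQ := by
    rw [htoO]
    exact add_mem (intCast_mem KQ _) (mul_mem (intCast_mem KQ _) hw)
  have hI : IsIntegral ℤ (toO la) := by
    rw [htoO]
    exact (isIntegral_algebraMap (R := ℤ) (A := Om) (x := la.re)).add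
      ((isIntegral_algebraMap (R := ℤ) (A := Om) (x := la.im)).mul hwI)
  have hIK : IsIntegral ℤ (⟨toO la, hmem⟩ : KQ) := by
    rw [← isIntegral_algebraMap_iff (B := Om) (algebraMap KQ Om).injective]
    exact hI
  let b : 𝓞 KQ := ⟨⟨toO la, hmem⟩, hIK⟩
  have hbc : ((b : KQ) : Om) = toO la := rfl
  refine ⟨hNF, b, hbc, ?_⟩
  -- the imaginary coordinate is not zero
  have him : la.im ≠ 0 := by
    intro h0
    rw [Nm, h0] at hla
    have h1 : la.re ^ 2 = l := by
      rw [← hla]
      ring
    have h2 : (la.re.natAbs ^ 2 : ℕ) = l := by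
      have h3 : ((la.re.natAbs ^ 2 : ℕ) : ℤ) = l := by
        rw [Nat.cast_pow, Int.natCast_natAbs, sq_abs, h1]
      exact_mod_cast h3
    rw [← h2] at hl
    exact (Nat.Prime.not_prime_pow (n := 2) le_rfl) hl
  have hgen : KQ = IntermediateField.adjoin ℚ {toO la} := by
    apply le_antisymm
    · rw [KQ, IntermediateField.adjoin_simple_le_iff]
      have h1 : wO = (toO la - (la.re : Om)) / (la.im : Om) := by
        have h2 : (la.im : Om) ≠ 0 := by exact_mod_cast him
        rw [htoO]
        field_simp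
        ring
      rw [h1]
      exact div_mem (sub_mem (IntermediateField.mem_adjoin_simple_self ℚ _)
        (intCast_mem _ _)) (intCast_mem _ _)
    · rw [IntermediateField.adjoin_simple_le_iff]
      exact hmem
  have hnorm : Algebra.norm ℚ (b : KQ) = (l : ℚ) := by
    apply NmKAux.norm_root KQ (toO la) (2 * la.re + la.im) l hgen ?_ ?_ _ hbc
    · have hl2 : (l : Om) = ((Nm la : ℤ) : Om) := by
        rw [hla]
        simp
      have e1 : ((2 * la.re + la.im : ℚ) : Om) = 2 * (la.re : Om) + la.im := by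
        push_cast
        ring
      have e2 : ((l : ℚ) : Om) = (l : Om) := by
        push_cast
        ring
      rw [e1, e2, hl2, Nm, htoO]
      push_cast
      linear_combination (la.im : Om) ^ 2 * wO_sq
    · intro t ht
      have hl2 : (l : ℚ) = ((Nm la : ℤ) : ℚ) := by
        rw [hla]
        simp
      rw [hl2, Nm] at ht
      push_cast at ht
      have h3 : 0 < (la.im : ℚ) ^ 2 := by
        have h4 : (la.im : ℚ) ≠ 0 := by exact_mod_cast him
        positivity
      nlinarith [sq_nonneg (t - la.re - la.im / 2)]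
  have habs : Ideal.absNorm (Ideal.span {b} : Ideal (𝓞 KQ)) = l := by
    rw [Ideal.absNorm_span_singleton]
    have h1 : ((Algebra.norm ℤ b : ℤ) : ℚ) = (l : ℚ) := by
      rw [Algebra.coe_norm_int]
      exact hnorm
    have h2 : Algebra.norm ℤ b = (l : ℤ) := by exact_mod_cast h1
    rw [h2, Int.natAbs_natCast]
  have hprime : (Ideal.span {b} : Ideal (𝓞 KQ)).IsPrime := by
    apply Ideal.isPrime_of_irreducible_absNorm
    rw [habs]
    exact hl
  refine ⟨hprime, ?_⟩
  intro P hP hMP
  have hne : (Ideal.span {b} : Ideal (𝓞 KQ)) ≠ ⊥ := by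
    intro h0
    rw [h0, Ideal.absNorm_bot] at habs
    exact hl.ne_zero habs.symm
  have hmax : (Ideal.span {b} : Ideal (𝓞 KQ)).IsMaximal := hprime.isMaximal hne
  have hbP : iO KQ b ∈ P := by
    have h1 : MP P ((iO KQ b : ZZ) : Om) := hMP
    exact (MP.coe_iff _).1 h1
  have hle : (Ideal.span {b} : Ideal (𝓞 KQ)) ≤ P.comap (iO KQ) := by
    rw [Ideal.span_singleton_le_iff_mem, Ideal.mem_comap]
    exact hbP
  have hne2 : P.comap (iO KQ) ≠ ⊤ := (hP.comap (iO KQ)).ne_top
  exact (hmax.eq_of_le hne2 hle).symm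

end Pool.Agent.DI.H3
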