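import Pool.Agent.Lib.DI.H3.Spec

set_option autoImplicit false

/-!
# Theorem DI, part H3, module `Nrm`: the norm relation
-/

open scoped Pointwise nonZeroDivisors

noncomputable section

namespace Pool.Agent.DI.H3

open Pool.Agent.MuZ Pool.Agent.FW Pool.Agent.DI NumberField IsDedekindDomain

namespace NrmAux

theorem tor (f N : ℕ) (hf : Odd f) (x : OO) : Tor (Tz f N x) :=
  ⟨x, f * 2 ^ N, Nat.mul_pos hf.pos (pow_pos two_pos N), rfl⟩

theorem neg (f N : ℕ) (x : OO) : Tz f N (-x) = -Tz f N x := by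
  unfold Tz
  rw [map_neg, neg_div]

theorem add (f N : ℕ) (hf : Odd f) (x y : OO) :
    Tz f N (x + (f * 2 ^ N : ℕ) * y) = Tz f N x + toC y := by
  have h0 : ((f * 2 ^ N : ℕ) : ℂ) ≠ 0 :=
    Nat.cast_ne_zero.2 (Nat.mul_pos hf.pos (pow_pos two_pos N)).ne'
  unfold Tz
  rw [map_add, map_mul, map_natCast, add_div, mul_div_cancel_left₀ _ h0]

theorem mul (f N : ℕ) (x y : OO) : Tz f N (x * y) = toC x * Tz f N y := by
  unfold Tz
  rw [map_mul, mul_div_assoc]

theorem pL0 (la : OO) : pL la 0 = 0 := by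
  unfold pL
  rw [Nat.cast_zero, zero_div]

end NrmAux

theorem tNrm (h1 : S_hUni) (h2 : S_hGd) (h3 : S_hRdm) (h4 : S_hTP) (h5 : S_D8) (h6 : S_G3)
    (_h7 : S_UNm) (_h8 : S_UEx) : S_hNrm := by
  intro f N μ S T v l la r D c hc
  obtain ⟨_, hodd, hu⟩ := h1 f N μ S T v l la r D
  obtain ⟨_, _, _, hdist⟩ := hc
  have hf := D.hf
  have hR := h3 f l la r D.toDatL
  have hprod := hR.2.2.2.2.2.2.2.2.2.2.2.1
  have hu0 : uN f N μ S T v ≠ 0 := (h6 f μ S N T hf D.h7 D.hμ D.hS D.hN D.hT v D.hv).2.1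
  have hμ2 : ¬ (2 : ℤ) ∣ Nm μ := by
    intro h
    have hcp : IsCoprime (Nm μ) ((2 * f : ℕ) : ℤ) := D.hμ
    have h' : (2 : ℤ) ∣ ((2 * f : ℕ) : ℤ) := by
      push_cast
      exact Dvd.intro _ rfl
    have hun := hcp.isUnit_of_dvd' h h'
    rw [Int.isUnit_iff] at hun
    omega
  have hla2 : ¬ (2 : ℤ) ∣ Nm la := by
    rw [D.hla]
    have := D.hl4
    omega
  -- the relation for one element of `T`
  have hone : ∀ t ∈ T, Theta μ S (Tz f N (t * v)) *
      (∏ j ∈ Sqs l, Theta μ S (Tz f N (t * v) + pL la j)) *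
      (∏ j ∈ Nsq l, Theta μ S (Tz f N (t * v) + pL la j)) =
        c * Theta μ S (Tz f N (la * t * v)) := by
    intro t ht
    have hgd := h2 f N μ (t * v) la 0 hf (le_trans one_le_two D.hN) hμ2 (hodd t ht) hla2
    have hd := hdist (Tz f N (t * v)) (NrmAux.tor f N hf _) hgd.2.2.1
    rw [hprod, NrmAux.pL0, add_zero] at hd
    rw [hd, mul_assoc la t v, NrmAux.mul f N la (t * v)]
  have hTP := h4 f N T la (fun x => Theta μ S (Tz f N (x * v))) hf D.h7 D.hT D.hHN
    (fun x => by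
      rw [neg_mul, NrmAux.neg]
      exact (h5 μ S S D.hS D.hS _ (NrmAux.tor f N hf _)).2.1)
    (fun x y => by
      have e : (x + ((f * 2 ^ N : ℕ) : OO) * y) * v = x * v + ((f * 2 ^ N : ℕ) : OO) * (y * v) := by
        ring
      rw [e, NrmAux.add f N hf]
      exact (h5 μ S S D.hS D.hS _ (NrmAux.tor f N hf _)).2.2.1 _)
  have hall : uN f N μ S T v * (epq f N μ S T v la (Sqs l) * epq f N μ S T v la (Nsq l)) =
      uN f N μ S T v * c ^ T.card := by
    calc uN f N μ S T v * (epq f N μ S T v la (Sqs l) * epq f N μ S T v la (Nsq l))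
        = ∏ t ∈ T, (Theta μ S (Tz f N (t * v)) *
            (∏ j ∈ Sqs l, Theta μ S (Tz f N (t * v) + pL la j)) *
            (∏ j ∈ Nsq l, Theta μ S (Tz f N (t * v) + pL la j))) := by
          rw [Finset.prod_mul_distrib, Finset.prod_mul_distrib, hu]
          unfold epq
          ring
      _ = ∏ t ∈ T, (c * Theta μ S (Tz f N (la * t * v))) := Finset.prod_congr rfl hone
      _ = c ^ T.card * ∏ t ∈ T, Theta μ S (Tz f N (la * t * v)) := by
          rw [Finset.prod_mul_distrib, Finset.prod_const]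
      _ = c ^ T.card * ∏ t ∈ T, Theta μ S (Tz f N (t * v)) := by
          rw [← hTP]
      _ = uN f N μ S T v * c ^ T.card := by
          rw [hu, mul_comm]
  exact mul_left_cancel₀ hu0 hall

end Pool.Agent.DI.H3
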