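import Pool.Agent.Lib.DI.H3.Spec

set_option autoImplicit false

/-!
# Theorem DI, part H3: `h` is ramified over `λ` (`S_hRam`)
-/

namespace Pool.Agent.DI.H3

open Pool.Agent.MuZ Pool.Agent.FW Pool.Agent.DI NumberField IsDedekindDomain

open scoped Pointwise nonZeroDivisors

namespace RamAux

theorem two_not {P : Ideal ZZ} [hP : P.IsPrime] {l n : ℕ} (hl : (l : ZZ) ∈ P)
    (h : l.Coprime n) : ¬ MP P (n : Om) := by
  intro h1
  have h2 : (n : ZZ) ∈ P := (MP.nat_iff n).1 h1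
  have h3 : IsCoprime (l : ℤ) (n : ℤ) := Nat.isCoprime_iff_coprime.2 h
  obtain ⟨a, b, hab⟩ := h3
  apply hP.one_notMem
  have h4 : (a : ZZ) * (l : ZZ) + (b : ZZ) * (n : ZZ) = 1 := by
    have := congrArg (fun t : ℤ => (t : ZZ)) hab
    simpa using this
  rw [← h4]
  exact P.add_mem (P.mul_mem_left _ hl) (P.mul_mem_left _ h2)

theorem gk_toO {τ : Gal(Om/ℚ)} (hτ : τ ∈ GK) (v : OO) : τ (toO v) = toO v := by
  have h1 : toO v ∈ KQ := by
    change (v.re : Om) + v.im * wO ∈ KQ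
    exact KQ.add_mem (intCast_mem KQ v.re)
      (KQ.mul_mem (intCast_mem KQ v.im) (IntermediateField.mem_adjoin_simple_self ℚ wO))
  exact (IntermediateField.mem_fixingSubgroup_iff KQ τ).1 hτ _ h1

theorem mem_Sqs {l : ℕ} (j : ℕ) :
    j ∈ Sqs l ↔ j < l ∧ (j : ZMod l) ≠ 0 ∧ IsSquare (j : ZMod l) := by
  classical
  unfold Sqs
  exact Finset.mem_filter.trans (and_congr_left' Finset.mem_range)

theorem zO_congr {z z' : ℂ} (h : XC z = XC z') : zO z = zO z' := by
  unfold zO xO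
  rw [h]

end RamAux

open RamAux in
theorem tRam (h1 : S_hInr) (h2 : S_E1) (h3 : S_E4) (h4 : S_D3) (h5 : S_B2) (h6 : S_hPrm)
    (h7 : S_hFix) (h8 : S_hRdm) (h9 : S_hLat) (h10 : S_UHN) : S_hRam := by
  intro f N l la r hD h hh P hP hlP hPla
  have : P.IsPrime := hP.1
  have hlp := hD.hl
  have : Fact l.Prime := ⟨hlp⟩
  have : NeZero l := ⟨hlp.ne_zero⟩
  have hl4 := hD.hl4
  have hl2 : l ≠ 2 := by
    intro h
    rw [h] at hl4
    omega
  have hlc2 : l.Coprime 2 := (Nat.coprime_primes hlp Nat.prime_two).2 hl2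
  obtain ⟨ι, hι, hGK, hne⟩ := h1 l la hlp hl2 hD.hla P hP hlP hPla
  obtain ⟨r1, r2, r3, r4, r5, r6, r7, r8, r9, r10, r11, -, r13⟩ := h8 f l la r hD
  obtain ⟨q1, q2, -, -, q5, q6, -⟩ := h9 f l la r hD
  obtain ⟨⟨-, un1, -, u1⟩, -, -, -, uper, -⟩ := h10 f N hD.hf hD.h7
  -- (1) `ι` fixes `L_n`
  have hfpos : 0 < f := hD.hf.pos
  have hpos : 0 < f * 2 ^ N := Nat.mul_pos hfpos (pow_pos two_pos N)
  have hcop : l.Coprime (f * 2 ^ N) := Nat.Coprime.mul_right hD.hlf (hlc2.pow_right N)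
  have hιL : ι ∈ (Ln f N).fixingSubgroup := by
    refine ((h7.1 f N hD.hf hD.h7).2.1 ι).2 ⟨hGK, fun a ha => ?_⟩
    rcases (h3 P hP ι hGK hι).2 (f * 2 ^ N) hpos (two_not hlP hcop) with hp | hp
    · obtain ⟨u, hu⟩ := h2.2 ι (f * 2 ^ N) a 1 hpos ha hp
      have := uper 1 u u1
      rwa [← hu, add_sub_cancel] at this
    · obtain ⟨u, hu⟩ := h2.2 ι (f * 2 ^ N) a (-1) hpos ha hp
      have := uper (-1) u un1
      rwa [← hu, add_sub_cancel] at this
  refine ⟨ι, hι, hιL, fun h0 => ?_⟩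
  -- (2)
  obtain ⟨a, ha⟩ := h2.1 ι hGK l hlp.pos
  have hsq : IsSquare (rd r a) := (hh ι hιL l a hlp.pos (dvd_refl l) ha).1 h0
  have hxa : rd r a ≠ 0 := r7 a ha.1
  set x : ZMod l := rd r a with hx
  set G : ℕ → Om := fun j => zO (pL la j) with hG
  set e : ℕ → ℕ := fun j => (x * (j : ZMod l)).val with he
  have hecast : ∀ j : ℕ, ((e j : ℕ) : ZMod l) = x * j := fun j => by
    rw [he]
    exact ZMod.natCast_zmod_val _
  have hRG : ∀ i j : ℕ, ((i : ZMod l) = j ∨ (i : ZMod l) = -(j : ZMod l)) → G i = G j := by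
    rintro i j (hij | hij)
    · obtain ⟨z, hz⟩ := q1 1 i j (by rw [r6, one_mul, hij])
      rw [map_one, one_mul] at hz
      apply zO_congr
      rw [hz]
      exact (h5.1 _ z).1
    · obtain ⟨z, hz⟩ := q1 (-1) i j (by rw [r4, r6, hij, neg_mul_neg, one_mul])
      rw [map_neg, map_one, neg_one_mul] at hz
      apply zO_congr
      rw [← (h5.2 (pL la i)).1, hz]
      exact (h5.1 _ z).1
  have hmem : ∀ j : ℕ, j ∈ Sqs l ↔ j < l ∧ (j : ZMod l) ≠ 0 ∧ IsSquare (j : ZMod l) := mem_Sqs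
  have hcast_sub : ∀ j : ℕ, j ≤ l → ((l - j : ℕ) : ZMod l) = -(j : ZMod l) := by
    intro j hj
    rw [Nat.cast_sub hj, ZMod.natCast_self, zero_sub]
  have hιG : ∀ j : ℕ, ι (G j) = G (e j) := by
    intro j
    obtain ⟨z, hz⟩ := q1 a j (e j) (hecast j)
    have e1 : toC a * pL la j = toC (a * (j * cjO la)) / l := by
      rw [q5 j, map_mul toC a, mul_div_assoc]
    have e2 : ι (xO (pL la j)) = xO (toC a * pL la j) := by
      rw [e1, ← (ha.2 (j * cjO la)).1, ← q5 j]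
    have e3 : xO (toC a * pL la j) = xO (pL la (e j)) := by
      unfold xO
      rw [hz, (h5.1 _ z).1]
    change ι ((xO (pL la j) - 1 / 4) / toO s7) = (xO (pL la (e j)) - 1 / 4) / toO s7
    rw [map_div₀, map_sub, gk_toO hGK, e2, e3]
    congr 2
    rw [map_div₀, map_one, map_ofNat]
  set B : Finset ℕ := (Sqs l).filter (fun j => 2 * j < l) with hB
  have hBmem : ∀ j : ℕ, j ∈ B ↔ (j < l ∧ (j : ZMod l) ≠ 0 ∧ IsSquare (j : ZMod l)) ∧ 2 * j < l := by
    intro j
    rw [hB, Finset.mem_filter, hmem]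
  have hprod : ∏ j ∈ B, G (e j) = ∏ j ∈ B, G j := by
    refine h6 ℕ Om B (fun i j => (i : ZMod l) = j ∨ (i : ZMod l) = -(j : ZMod l)) e G
      ?_ ?_ ?_ ?_ hRG
    · rintro i j (hij | hij)
      · exact Or.inl hij.symm
      · right
        rw [hij, neg_neg]
    · rintro i j k (hij | hij) (hjk | hjk)
      · exact Or.inl (hij.trans hjk)
      · exact Or.inr (hij.trans hjk)
      · right
        rw [hij, hjk]
      · left
        rw [hij, hjk, neg_neg]
    · intro t ht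
      obtain ⟨⟨ht1, ht2, ht3⟩, ht4⟩ := (hBmem t).1 ht
      have hne' : ((e t : ℕ) : ZMod l) ≠ 0 := by
        rw [hecast]
        exact mul_ne_zero hxa ht2
      have hsq' : IsSquare ((e t : ℕ) : ZMod l) := by
        rw [hecast]
        exact hsq.mul ht3
      have hlt : e t < l := ZMod.val_lt _
      by_cases hc : 2 * e t < l
      · exact ⟨e t, (hBmem _).2 ⟨⟨hlt, hne', hsq'⟩, hc⟩, Or.inl rfl⟩
      · refine ⟨l - e t, (hBmem _).2 ⟨⟨?_, ?_, ?_⟩, ?_⟩, Or.inr ?_⟩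
        · omega
        · rw [hcast_sub _ hlt.le]
          exact neg_ne_zero.2 hne'
        · rw [hcast_sub _ hlt.le, ← neg_one_mul]
          exact r10.mul hsq'
        · omega
        · rw [hcast_sub _ hlt.le, neg_neg]
    · intro t ht t' ht' hR
      obtain ⟨⟨ht1, ht2, ht3⟩, ht4⟩ := (hBmem t).1 ht
      obtain ⟨⟨ht1', ht2', ht3'⟩, ht4'⟩ := (hBmem t').1 ht'
      rw [hecast, hecast] at hR
      rcases hR with hR | hR
      · have h11 : (t : ZMod l) = t' := mul_left_cancel₀ hxa hR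
        have h12 := (ZMod.natCast_eq_natCast_iff' t t' l).1 h11
        rwa [Nat.mod_eq_of_lt ht1, Nat.mod_eq_of_lt ht1'] at h12
      · exfalso
        have h11 : (t : ZMod l) = -(t' : ZMod l) := by
          apply mul_left_cancel₀ hxa
          rw [hR, mul_neg]
        have h12 : ((t + t' : ℕ) : ZMod l) = 0 := by
          rw [Nat.cast_add, h11, neg_add_cancel]
        have h13 : l ∣ t + t' := (ZMod.natCast_eq_zero_iff _ _).1 h12
        have h14 : t ≠ 0 := by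
          rintro rfl
          exact ht2 Nat.cast_zero
        have h15 := Nat.le_of_dvd (by omega) h13
        omega
  -- (3)
  set β : Om := sqr (toO la) with hβ
  have hβ2 : β ^ 2 = toO la := sqr_sq _
  have hιβ : ι β = -β := by
    have h11 : (ι β) ^ 2 = β ^ 2 := by
      rw [← map_pow, hβ2, gk_toO hGK]
    rcases sq_eq_sq_iff_eq_or_eq_neg.1 h11 with h12 | h12
    · exact absurd h12 hne
    · exact h12
  obtain ⟨x1, hx1⟩ : ∃ x1 : Om, x1 = ∏ j ∈ B, G j := ⟨_, rfl⟩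
  have hιx1 : ι x1 = x1 := by
    rw [hx1, map_prod]
    exact (Finset.prod_congr rfl fun j _ => hιG j).trans hprod
  have hx1sq : ∏ j ∈ Sqs l, G j = x1 ^ 2 := by
    rw [hx1]
    refine r13 G fun j hj => hRG _ _ (Or.inr ?_)
    exact hcast_sub j ((hmem j).1 hj).1.le
  have hUy2 : UP P (((x1 * β) ^ 2) ^ ((l - 1) / 2)) := by
    have e1 : ((x1 * β) ^ 2) ^ ((l - 1) / 2) =
        ∏ j ∈ Sqs l, (toO la * G j ^ ((l - 1) / 2)) := by
      rw [Finset.prod_mul_distrib, Finset.prod_const, r11, Finset.prod_pow, hx1sq, mul_pow, hβ2,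
        mul_pow, mul_comm]
    rw [e1]
    refine UP.prod _ _ fun j hj => ?_
    obtain ⟨hj1, hj2, hj3⟩ := (hmem j).1 hj
    have hj0 : 0 < j := by
      rw [Nat.pos_iff_ne_zero]
      rintro rfl
      exact hj2 Nat.cast_zero
    obtain ⟨w1, w2⟩ := q2 j hj0 hj1
    exact (h4 la l hlp hl2 hD.hl7 hD.hla P hP hPla _ w1 w2).2
  have hlpos : 0 < (l - 1) / 2 := by
    have := hlp.two_le
    omega
  have hUy : UP P (x1 * β) := UP.of_pow two_pos (UP.of_pow hlpos hUy2)
  -- (4)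
  have hiy : ι (x1 * β) = -(x1 * β) := by
    rw [map_mul, hιx1, hιβ, mul_neg]
  have hM := VP.inertia hι hUy.1
  rw [hiy] at hM
  have hM2 : MP P (2 * (x1 * β)) := by
    have h11 := hM.neg
    have e1 : -(-(x1 * β) - x1 * β) = 2 * (x1 * β) := by ring
    rwa [e1] at h11
  have hV2 : VP P (2 : Om) := by
    have := VP.nat (P := P) 2
    simpa using this
  rcases MP.mul_cases hV2 hUy.1 hM2 with h11 | h11
  · have h12 : MP P ((2 : ℕ) : Om) := by simpa using h11
    exact two_not hlP hlc2 h12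
  · exact hUy.2 h11

end Pool.Agent.DI.H3
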