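import Pool.Agent.Lib.DI.H3.Spec

set_option autoImplicit false

/-!
# Theorem DI, part H3, module Rdm: the reduction modulo `λ` and squares
-/

open scoped Pointwise nonZeroDivisors

noncomputable section

namespace Pool.Agent.DI.H3

open Pool.Agent.MuZ Pool.Agent.FW Pool.Agent.DI NumberField IsDedekindDomain

namespace RdmAux

theorem rd_mul {l : ℕ} {r : ZMod l} (hr : r ^ 2 = r - 2) (x y : OO) :
    rd r (x * y) = rd r x * rd r y := by
  unfold rd
  rw [QuadraticAlgebra.re_mul, QuadraticAlgebra.im_mul]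
  push_cast
  linear_combination (-((x.im : ZMod l) * (y.im : ZMod l))) * hr

theorem rd_add {l : ℕ} (r : ZMod l) (x y : OO) : rd r (x + y) = rd r x + rd r y := by
  unfold rd
  rw [QuadraticAlgebra.re_add, QuadraticAlgebra.im_add]
  push_cast
  ring

theorem rd_neg {l : ℕ} (r : ZMod l) (x : OO) : rd r (-x) = - rd r x := by
  unfold rd
  rw [QuadraticAlgebra.re_neg, QuadraticAlgebra.im_neg]
  push_cast
  ring

theorem rd_sub {l : ℕ} (r : ZMod l) (x y : OO) : rd r (x - y) = rd r x - rd r y := by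
  rw [sub_eq_add_neg, rd_add, rd_neg, sub_eq_add_neg]

theorem rd_nat {l : ℕ} (r : ZMod l) (n : ℕ) : rd r (n : OO) = n := by
  unfold rd
  rw [QuadraticAlgebra.re_natCast, QuadraticAlgebra.im_natCast]
  simp

theorem rd_one {l : ℕ} (r : ZMod l) : rd r (1 : OO) = 1 := by
  unfold rd
  rw [QuadraticAlgebra.re_one, QuadraticAlgebra.im_one]
  simp

theorem sq_mul {l : ℕ} [hl : Fact l.Prime] (x y : ZMod l) (hx : x ≠ 0) (hy : y ≠ 0) :
    IsSquare (x * y) ↔ (IsSquare x ↔ IsSquare y) := by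
  have hxy : x * y ≠ 0 := mul_ne_zero hx hy
  have hm : quadraticChar (ZMod l) (x * y) = quadraticChar (ZMod l) x * quadraticChar (ZMod l) y :=
    map_mul _ _ _
  rw [← quadraticChar_one_iff_isSquare hxy, ← quadraticChar_one_iff_isSquare hx,
    ← quadraticChar_one_iff_isSquare hy, hm]
  rcases quadraticChar_dichotomy hx with h1 | h1 <;> rcases quadraticChar_dichotomy hy with h2 | h2 <;>
    rw [h1, h2] <;> norm_num

theorem mem_Sqs {l j : ℕ} : j ∈ Sqs l ↔ j < l ∧ (j : ZMod l) ≠ 0 ∧ IsSquare (j : ZMod l) := by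
  unfold Sqs
  simp only [Finset.mem_filter, Finset.mem_range]

theorem mem_Nsq {l j : ℕ} : j ∈ Nsq l ↔ j < l ∧ ¬ IsSquare (j : ZMod l) := by
  unfold Nsq
  simp only [Finset.mem_filter, Finset.mem_range]

theorem prod_split {l : ℕ} (hl : 0 < l) (g : ℕ → Om) :
    ∏ j ∈ Finset.range l, g j = g 0 * (∏ j ∈ Sqs l, g j) * ∏ j ∈ Nsq l, g j := by
  classical
  rw [← Finset.prod_filter_mul_prod_filter_not (Finset.range l) (fun j : ℕ => IsSquare (j : ZMod l))]
  have h1 : (Finset.range l).filter (fun j : ℕ => IsSquare (j : ZMod l)) = insert 0 (Sqs l) := by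
    ext j
    rw [Finset.mem_filter, Finset.mem_range, Finset.mem_insert, mem_Sqs]
    constructor
    · rintro ⟨h1, h2⟩
      rcases Nat.eq_zero_or_pos j with h3 | h3
      · exact Or.inl h3
      · refine Or.inr ⟨h1, fun h4 => ?_, h2⟩
        rw [ZMod.natCast_eq_zero_iff] at h4
        exact absurd (Nat.le_of_dvd h3 h4) (by omega)
    · rintro (h1 | ⟨h1, _, h2⟩)
      · subst h1
        exact ⟨hl, by simp⟩
      · exact ⟨h1, h2⟩
  have h0 : 0 ∉ Sqs l := by
    rw [mem_Sqs]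
    rintro ⟨_, h, _⟩
    exact h (by simp)
  rw [h1, Finset.prod_insert h0]
  rfl

theorem card_split {l : ℕ} (hl : 0 < l) : l = 1 + (Sqs l).card + (Nsq l).card := by
  classical
  have h := Finset.card_filter_add_card_filter_not (s := Finset.range l)
    (fun j : ℕ => IsSquare (j : ZMod l))
  rw [Finset.card_range] at h
  have h1 : (Finset.range l).filter (fun j : ℕ => IsSquare (j : ZMod l)) = insert 0 (Sqs l) := by
    ext j
    rw [Finset.mem_filter, Finset.mem_range, Finset.mem_insert, mem_Sqs]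
    constructor
    · rintro ⟨h1, h2⟩
      rcases Nat.eq_zero_or_pos j with h3 | h3
      · exact Or.inl h3
      · refine Or.inr ⟨h1, fun h4 => ?_, h2⟩
        rw [ZMod.natCast_eq_zero_iff] at h4
        exact absurd (Nat.le_of_dvd h3 h4) (by omega)
    · rintro (h1 | ⟨h1, _, h2⟩)
      · subst h1
        exact ⟨hl, by simp⟩
      · exact ⟨h1, h2⟩
  have h0 : 0 ∉ Sqs l := by
    rw [mem_Sqs]
    rintro ⟨_, h, _⟩
    exact h (by simp)
  rw [h1, Finset.card_insert_of_notMem h0] at h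
  have h2 : (Finset.range l).filter (fun j : ℕ => ¬ IsSquare (j : ZMod l)) = Nsq l := rfl
  rw [h2] at h
  omega

theorem card_eq {l : ℕ} [hl : Fact l.Prime] (h2 : l ≠ 2) : (Sqs l).card = (Nsq l).card := by
  classical
  obtain ⟨n, hn⟩ := FiniteField.exists_nonsquare (F := ZMod l)
    (by rw [ZMod.ringChar_zmod_n]; exact h2)
  have hn0 : n ≠ 0 := by
    rintro rfl
    exact hn (by simp)
  have hinj : ∀ (A : Finset ℕ), (∀ j ∈ A, j < l) →
      Set.InjOn (fun j : ℕ => (n * (j : ZMod l)).val) (A : Set ℕ) := by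
    intro A hA i hi j hj hij
    have h3 : n * (i : ZMod l) = n * (j : ZMod l) := ZMod.val_injective l hij
    have h4 : (i : ZMod l) = (j : ZMod l) := mul_left_cancel₀ hn0 h3
    have h5 := congrArg ZMod.val h4
    rw [ZMod.val_natCast_of_lt (hA i hi), ZMod.val_natCast_of_lt (hA j hj)] at h5
    exact h5
  apply le_antisymm
  · refine Finset.card_le_card_of_injOn (fun j : ℕ => (n * (j : ZMod l)).val) ?_
      (hinj _ fun j hj => (mem_Sqs.1 hj).1)
    intro j hj
    have hj' := mem_Sqs.1 (Finset.mem_coe.1 hj)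
    refine Finset.mem_coe.2 (mem_Nsq.2 ⟨ZMod.val_lt _, ?_⟩)
    rw [ZMod.natCast_val, ZMod.cast_id', id]
    rw [sq_mul n _ hn0 hj'.2.1]
    intro h
    exact hn (h.2 hj'.2.2)
  · refine Finset.card_le_card_of_injOn (fun j : ℕ => (n * (j : ZMod l)).val) ?_
      (hinj _ fun j hj => (mem_Nsq.1 hj).1)
    intro j hj
    have hj' := mem_Nsq.1 (Finset.mem_coe.1 hj)
    have hj0 : (j : ZMod l) ≠ 0 := by
      intro h
      rw [h] at hj'
      exact hj'.2 (by simp)
    refine Finset.mem_coe.2 (mem_Sqs.2 ⟨ZMod.val_lt _, ?_, ?_⟩)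
    · rw [ZMod.natCast_val, ZMod.cast_id', id]
      exact mul_ne_zero hn0 hj0
    · rw [ZMod.natCast_val, ZMod.cast_id', id]
      rw [sq_mul n _ hn0 hj0]
      exact ⟨fun h => absurd h hn, fun h => absurd h hj'.2⟩

theorem refl_mem {l j : ℕ} [hl : Fact l.Prime] (hm : IsSquare (-1 : ZMod l)) (hj : j ∈ Sqs l) :
    l - j ∈ Sqs l := by
  have hj' := mem_Sqs.1 hj
  have h0 : 0 < j := by
    rcases Nat.eq_zero_or_pos j with h | h
    · subst h
      exact absurd (by simp) hj'.2.1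
    · exact h
  have hc : ((l - j : ℕ) : ZMod l) = -1 * (j : ZMod l) := by
    rw [Nat.cast_sub hj'.1.le]
    simp
  refine mem_Sqs.2 ⟨by omega, ?_, ?_⟩
  · rw [hc]
    exact mul_ne_zero (neg_ne_zero.2 one_ne_zero) hj'.2.1
  · rw [hc]
    exact hm.mul hj'.2.2

theorem prod_half {l : ℕ} [hl : Fact l.Prime] (h4 : l % 4 = 1) (hm : IsSquare (-1 : ZMod l))
    (g : ℕ → Om) (hg : ∀ j ∈ Sqs l, g (l - j) = g j) :
    ∏ j ∈ Sqs l, g j = (∏ j ∈ (Sqs l).filter (fun j => 2 * j < l), g j) ^ 2 := by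
  classical
  rw [← Finset.prod_filter_mul_prod_filter_not (Sqs l) (fun j => 2 * j < l), sq]
  congr 1
  refine Finset.prod_bij' (fun j _ => l - j) (fun j _ => l - j) ?_ ?_ ?_ ?_ ?_
  · intro j hj
    rw [Finset.mem_filter] at hj ⊢
    have := (mem_Sqs.1 hj.1).1
    exact ⟨refl_mem hm hj.1, by omega⟩
  · intro j hj
    rw [Finset.mem_filter] at hj ⊢
    have := (mem_Sqs.1 hj.1).1
    exact ⟨refl_mem hm hj.1, by omega⟩
  · intro j hj
    rw [Finset.mem_filter] at hj
    have := (mem_Sqs.1 hj.1).1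
    omega
  · intro j hj
    rw [Finset.mem_filter] at hj
    have := (mem_Sqs.1 hj.1).1
    omega
  · intro j hj
    rw [Finset.mem_filter] at hj
    exact (hg j hj.1).symm

end RdmAux

open RdmAux in
theorem tRdm (h1 : S_UNm) : S_hRdm := by
  intro f l la r hD
  have hl : Fact l.Prime := ⟨hD.hl⟩
  have hm : IsSquare (-1 : ZMod l) := by
    rw [ZMod.exists_sq_eq_neg_one_iff]
    have := hD.hl4
    omega
  have hl2 : l ≠ 2 := by
    have := hD.hl4
    omega
  refine ⟨rd_mul hD.hr, rd_add r, rd_sub r, rd_neg r, rd_nat r, rd_one r, ?_, ?_, sq_mul, hm, ?_,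
    prod_split hD.hl.pos, prod_half hD.hl4 hm⟩
  · intro a ha h0
    obtain ⟨b, hb⟩ := (hD.hker a).1 h0
    have h2 : (l : ℤ) ∣ Nm a := by
      rw [hb, h1.1, hD.hla]
      exact dvd_mul_right _ _
    have h3 : IsUnit (l : ℤ) := IsCoprime.isUnit_of_dvd' ha h2 dvd_rfl
    rw [Int.isUnit_iff] at h3
    have h4 := hD.hl.one_lt
    omega
  · rw [← h1.2.2.2.2.1 la, hD.hla, Int.cast_natCast]
  · have h2 := card_split hD.hl.pos
    have h3 := card_eq hl2
    omega

end Pool.Agent.DI.H3
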