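import Pool.Agent.Lib.DI.H3.Spec

set_option autoImplicit false

/-!
# Theorem DI, part H3: the result

Module `Res`: `tRes`, the statement `S_hRes` of `DI/H3/Spec.lean`.
-/

open scoped Pointwise nonZeroDivisors

noncomputable section

namespace Pool.Agent.DI.H3

open Pool.Agent.MuZ Pool.Agent.FW Pool.Agent.DI NumberField IsDedekindDomain

namespace ResAux

theorem Nm_nonneg (v : OO) : 0 ≤ Nm v := by
  unfold Nm
  nlinarith [sq_nonneg (2 * v.re + v.im), sq_nonneg v.im]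

theorem toO_mem (x : OO) : toO x ∈ KQ := by
  have h : (toO x : Om) = (x.re : Om) + (x.im : Om) * wO := rfl
  rw [h]
  exact KQ.add_mem (intCast_mem KQ _)
    (KQ.mul_mem (intCast_mem KQ _) (IntermediateField.mem_adjoin_simple_self ℚ wO))

theorem GK_fix {τ : Gal(Om/ℚ)} (hτ : τ ∈ GK) {x : Om} (hx : x ∈ KQ) : τ x = x :=
  (IntermediateField.mem_fixingSubgroup_iff KQ τ).1 hτ x hx

theorem npr_smul {Q : Ideal ZZ} (σ : Gal(Om/ℚ)) (hQ : Npr Q) : Npr (σ • Q) := by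
  obtain ⟨hp, h0⟩ := hQ
  refine ⟨inferInstance, fun h => h0 ?_⟩
  rw [eq_bot_iff]
  intro x hx
  have h1 : σ • x ∈ σ • Q := (smul_mem_smul_iff σ x).2 hx
  rw [h] at h1
  have h2 : σ • x = 0 := h1
  have h3 : x = 0 := by
    have h4 := congrArg (fun t => σ⁻¹ • t) h2
    simpa using h4
  rw [h3]
  exact Ideal.zero_mem _

end ResAux

open ResAux in
theorem tRes (h1 : S_E1) (h2 : S_E2) (h3 : S_G3) (h4 : S_hLa) (h5 : S_hCC) (h6 : S_hFix)
    (h7 : S_hEps) (h8 : S_hUni) (h9 : S_hNrm) (h10 : S_hCng) (h11 : S_hLeg) (h12 : S_hHom)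
    (h13 : S_hUnr) (h14 : S_hRam) (h15 : S_hTra) (h16 : S_UHN) (_h17 : S_UCop) : S_hRes := by
  intro f N μ S T v hf h7f hN hμ hS hT hv l hl hl4 hlc Q hQ hlQ φ hφ hφf
  have hl2 : l ≠ 2 := by omega
  have hodd : Odd l := by
    rw [Nat.odd_iff]
    omega
  have hlc7 : l.Coprime 7 := Nat.Coprime.coprime_dvd_right ⟨f * (Nm μ).toNat, by ring⟩ hlc
  have hlf : l.Coprime f := Nat.Coprime.coprime_dvd_right ⟨7 * (Nm μ).toNat, by ring⟩ hlc
  have hlm : l.Coprime (Nm μ).toNat := Nat.Coprime.coprime_dvd_right ⟨7 * f, by ring⟩ hlc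
  have hl7 : l ≠ 7 := by
    rintro rfl
    norm_num at hlc7
  obtain ⟨-, hfix, hconj⟩ := h6.1 f N hf h7f
  obtain ⟨hφK, hφH⟩ := (hfix φ).1 hφ
  obtain ⟨la, r, hla, hr, hker, hMQ⟩ := h4 l hl Q hQ hlQ φ hφK hφf
  have hQla : MP Q (toO la) := (hMQ la).2 dvd_rfl
  have hf0 : 0 < f := hf.pos
  have hm0 : 0 < f * 2 ^ N := Nat.mul_pos hf0 (pow_pos (by norm_num) N)
  have hcm : l.Coprime (f * 2 ^ N) :=
    Nat.Coprime.mul_right hlf (Nat.Coprime.pow_right N ((Nat.coprime_primes hl Nat.prime_two).2 hl2))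
  obtain ⟨⟨-, hHm1, -, -⟩, -, hHmul, -, -, -, -, -, -, -, -, -, hcard⟩ := h16 f N hf h7f
  have hHN : HN f N la := by
    rcases h2 la l hl hl2 hl7 hla Q hQ hQla φ hφK hφf (f * 2 ^ N) hm0 hcm with h | h
    · exact hφH la h
    · have h' := hHmul (-1) (-la) hHm1 (hφH (-la) h)
      rwa [neg_mul_neg, one_mul] at h'
  have hlμ : Cop μ l := by
    have e1 : (((Nm μ).toNat : ℕ) : ℤ) = Nm μ := Int.toNat_of_nonneg (Nm_nonneg μ)
    have e2 : IsCoprime (((Nm μ).toNat : ℕ) : ℤ) (l : ℤ) :=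
      Nat.isCoprime_iff_coprime.2 hlm.symm
    rwa [e1] at e2
  have hμ0 : 0 < (Nm μ).toNat := by
    have h0 := Nm_nonneg μ
    rcases h0.eq_or_lt with h | h
    · exfalso
      have hc : IsCoprime (Nm μ) ((2 * f : ℕ) : ℤ) := hμ
      rw [← h, isCoprime_zero_left, Int.isUnit_iff] at hc
      push_cast at hc
      omega
    · omega
  have D : Dat f N μ S T v l la r :=
    { hf := hf, h7 := h7f, hl := hl, hl4 := hl4, hl7 := hl7, hlf := hlf, hla := hla, hr := hr,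
      hker := hker, hN := hN, hμ := hμ, hS := hS, hT := hT, hv := hv, hlμ := hlμ, hHN := hHN }
  obtain ⟨c, hC⟩ := h5 f N μ S T v l la r D
  obtain ⟨hcK, hc0, hcU, -⟩ := id hC
  obtain ⟨h, hVV, hH⟩ := h12 f N l la r D.toDatL
  have h4T : 4 ∣ T.card := hcard hN T hT
  obtain ⟨εs, hεs⟩ : ∃ e, e = epq f N μ S T v la (Sqs l) := ⟨_, rfl⟩
  obtain ⟨εn, hεn⟩ : ∃ e, e = epq f N μ S T v la (Nsq l) := ⟨_, rfl⟩
  have hnrm : εs * εn = c ^ T.card := by
    rw [hεs, hεn]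
    exact h9 f N μ S T v l la r D c hC
  have hsq : c ^ T.card = c ^ (T.card / 2) * c ^ (T.card / 2) := by
    rw [← pow_add]
    congr 1
    omega
  have hcp : c ^ (T.card / 2) ≠ 0 := pow_ne_zero _ hc0
  have hεs0 : εs ≠ 0 := by
    intro h0
    rw [h0, zero_mul] at hnrm
    exact pow_ne_zero _ hc0 hnrm.symm
  -- the action of `Gal(Om/F)`
  have hact : ∀ τ ∈ (Ln f N).fixingSubgroup, (h τ = 0 → τ εs = εs) ∧ (h τ ≠ 0 → τ εs = εn) := by
    intro τ hτ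
    obtain ⟨hτK, hτH⟩ := (hfix τ).1 hτ
    have hM : 0 < f * 2 ^ N * l * (Nm μ).toNat := Nat.mul_pos (Nat.mul_pos hm0 hl.pos) hμ0
    obtain ⟨a, ha⟩ := h1.1 τ hτK _ hM
    have ha' : Psi τ (f * 2 ^ N) a := by
      refine h6.2 τ (f * 2 ^ N) (l * (Nm μ).toNat) a hm0 (Nat.mul_pos hl.pos hμ0) ?_
      rw [← mul_assoc]
      exact ha
    have hiff := hH τ hτ _ a hM ⟨f * 2 ^ N * (Nm μ).toNat, by ring⟩ ha
    obtain ⟨k1, k2⟩ := h7 f N μ S T v l la r D τ hτK a ha (hτH a ha')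
    rw [← hεs, ← hεn] at k1 k2
    exact ⟨fun h0 => (k1 (hiff.1 h0)).1, fun h0 => (k2 fun hs => h0 (hiff.2 hs)).1⟩
  have hτc : ∀ τ ∈ (Ln f N).fixingSubgroup, τ c = c := fun τ hτ => GK_fix ((hfix τ).1 hτ).1 hcK
  refine ⟨h, hVV, εs / c ^ (T.card / 2), div_ne_zero hεs0 hcp, ?_, ?_, ?_, ?_, ?_, ?_⟩
  · intro h0
    obtain ⟨ι, -, -, hι⟩ := h14 f N l la r D.toDatL h hH Q hQ hlQ hQla
    rw [h0] at hι
    exact hι rfl
  · intro τ hτ h0
    rw [map_div₀, map_pow, hτc τ hτ, (hact τ hτ).1 h0]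
  · intro τ hτ h0
    rw [map_div₀, map_pow, hτc τ hτ, (hact τ hτ).2 h0, div_mul_div_comm, mul_comm εn εs, hnrm, hsq]
    exact div_self (mul_ne_zero hcp hcp)
  · intro P hP hP2
    have := hP.1
    have hu := ((h8 f N μ S T v l la r D).1 P hP hP2).1
    rw [← hεs] at hu
    exact hu.div ((hcU P hP).pow _)
  · intro P hP hP2 hne ι hι hιF
    by_cases hm : MP P (toO la)
    · obtain ⟨σ, hσ, he⟩ := h15 l la hl hla P Q hP hQ hm hQla
      exact absurd he (hne σ hσ)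
    · exact h13 f N l la r D.toDatL h hH P hP hm ι hι hιF
  · intro σ hσ
    have hP : Npr (σ • Q) := npr_smul σ hQ
    have := hP.1
    have hlP : (l : ZZ) ∈ σ • Q := by
      have e : σ • (l : ZZ) = (l : ZZ) := by
        apply Subtype.ext
        rw [smul_coe]
        push_cast
        exact map_natCast σ l
      rw [← e]
      exact (smul_mem_smul_iff σ _).2 hlQ
    have hPla : MP (σ • Q) (toO la) := by
      have e := (MP.smul (P := Q) σ (x := toO la)).2 hQla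
      rwa [GK_fix hσ (toO_mem la)] at e
    have hψ := hconj σ hσ φ hφ
    have hψf : ∀ x : ZZ, (σ * φ * σ⁻¹) • x - x ^ l ∈ σ • Q := by
      intro x
      have e : (σ * φ * σ⁻¹) • x - x ^ l = σ • (φ • (σ⁻¹ • x) - (σ⁻¹ • x) ^ l) := by
        rw [smul_sub, smul_pow', smul_inv_smul, mul_smul, mul_smul]
      rw [e]
      exact (smul_mem_smul_iff σ _).2 (hφf _)
    obtain ⟨huL, hu0, huU, -⟩ := h3 f μ S N T hf h7f hμ hS hN hT v hv
    have hψu : (σ * φ * σ⁻¹) (uN f N μ S T v) = uN f N μ S T v :=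
      (IntermediateField.mem_fixingSubgroup_iff (Ln f N) _).1 hψ _ huL
    obtain ⟨k1, k2⟩ := h11.1 l (σ • Q) (uN f N μ S T v) (σ * φ * σ⁻¹) hodd hP (huU _ hP) hψu hψf
    have hk := h11.2 (uN f N μ S T v) σ φ hu0
    rw [hk] at k1 k2
    have hcng := h10 f N μ S T v l la r D c hC (σ • Q) hP hlP hPla
    rw [← hεs] at hcng
    refine ⟨h14 f N l la r D.toDatL h hH (σ • Q) hP hlP hPla, fun h0 => ?_, fun h0 => ?_⟩
    · have e := hcng.add (k1 h0)
      rwa [sub_add_sub_cancel] at e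
    · have e := hcng.add (k2 h0)
      have e' : εs / c ^ (T.card / 2) + 1 = εs / c ^ (T.card / 2) - uN f N μ S T v ^ ((l - 1) / 2) +
          (uN f N μ S T v ^ ((l - 1) / 2) + 1) := by ring
      rwa [← e'] at e

end Pool.Agent.DI.H3
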