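import Pool.Agent.Lib.DI.H3.Spec

/-!
# THEOREM DI, part H3: permutation of the set `T` of representatives
-/

set_option autoImplicit false

namespace Pool.Agent.DI.H3

open Pool.Agent.MuZ Pool.Agent.FW Pool.Agent.DI NumberField IsDedekindDomain
open scoped Pointwise nonZeroDivisors

theorem tTP (h1 : S_hPrm) (h2 : S_UHN) (h3 : S_UCop) : S_hTP := by
  intro f N T a G hf h7 hT ha hev hper
  obtain ⟨_, _, hmul, _, _, _, hcop, _⟩ := h2 f N hf h7
  have hca : IsCoprime a ((f * 2 ^ N : ℕ) : OO) := (h3.1 a (f * 2 ^ N)).mp (hcop a ha)
  set m : OO := ((f * 2 ^ N : ℕ) : OO) with hm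
  refine h1 OO Om T (fun x y => m ∣ x - y ∨ m ∣ x + y) (fun t => a * t) G ?_ ?_ ?_ ?_ ?_
  · intro x y h
    rcases h with h | h
    · exact Or.inl ((dvd_sub_comm).mp h)
    · exact Or.inr (by rwa [add_comm])
  · intro x y z hxy hyz
    rcases hxy with h | h <;> rcases hyz with h' | h'
    · left
      have := dvd_add h h'
      rwa [sub_add_sub_cancel] at this
    · right
      have := dvd_add h h'
      have e : x - y + (y + z) = x + z := by ring
      rwa [e] at this
    · right
      have := dvd_sub h h'
      have e : x + y - (y - z) = x + z := by ring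
      rwa [e] at this
    · left
      have := dvd_sub h h'
      have e : x + y - (y + z) = x - z := by ring
      rwa [e] at this
  · intro t ht
    obtain ⟨t', ht', h⟩ := hT.ex (a * t) (hmul a t ha (hT.mem t ht))
    exact ⟨t', ht', h⟩
  · intro t ht t' ht' h
    refine hT.uni t ht t' ht' ?_
    rcases h with h | h
    · left
      have e : a * t - a * t' = a * (t - t') := by ring
      rw [e] at h
      exact hca.symm.dvd_of_dvd_mul_left h
    · right
      have e : a * t + a * t' = a * (t + t') := by ring
      rw [e] at h
      exact hca.symm.dvd_of_dvd_mul_left h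
  · intro x y h
    rcases h with ⟨z, hz⟩ | ⟨z, hz⟩
    · have e : x = y + m * z := by rw [← hz]; ring
      rw [e, hm]
      exact hper y z
    · have e : x = -y + m * z := by rw [← hz]; ring
      rw [e, hm, hper (-y) z]
      exact hev y

end Pool.Agent.DI.H3
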