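import Pool.Agent.Lib.DI.H3.Spec

set_option autoImplicit false

/-!
# Theorem DI, part H3, module Uni: units
-/

open scoped Pointwise nonZeroDivisors

namespace Pool.Agent.DI.H3

open Pool.Agent.MuZ Pool.Agent.FW Pool.Agent.DI NumberField IsDedekindDomain

namespace UniAux

private lemma odd_of_coprime {a : ℤ} (h : IsCoprime a (2 : ℤ)) : ¬ (2 : ℤ) ∣ a := by
  intro hd
  have h2 : IsUnit (2 : ℤ) := h.symm.isUnit_of_dvd' dvd_rfl hd
  rw [Int.isUnit_iff] at h2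
  omega

end UniAux

open UniAux in
theorem tUni (h1 : S_D5) (h2 : S_hGd) (h3 : S_UCop) (h4 : S_UNm) : S_hUni := by
  intro f N μ S T v l la r hD
  obtain ⟨-, -, -, hmul, -, -, hcop2, -⟩ := h3
  obtain ⟨hNm, -⟩ := h4
  have hμ2 : Cop μ 2 := ((hmul μ 2 f).1 hD.hμ).1
  have hv2 : Cop v 2 := ((hmul v 2 f).1 hD.hv).1
  have oμ : ¬ (2 : ℤ) ∣ Nm μ := odd_of_coprime (by exact_mod_cast hμ2)
  have ov : ¬ (2 : ℤ) ∣ Nm v := odd_of_coprime (by exact_mod_cast hv2)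
  have ola : ¬ (2 : ℤ) ∣ Nm la := by
    rw [hD.hla]
    have := hD.hl4
    omega
  have ot : ∀ t ∈ T, ¬ (2 : ℤ) ∣ Nm t := by
    intro t ht
    have hp : (2 : ℤ) ∣ 2 ^ N := dvd_pow_self 2 (by have := hD.hN; omega)
    rcases (hD.hT.mem t ht).2 with h | h
    · have := hp.trans h
      omega
    · have := hp.trans h
      omega
  have otv : ∀ t ∈ T, ¬ (2 : ℤ) ∣ Nm (t * v) := by
    intro t ht hd
    rw [hNm] at hd
    rcases Int.prime_two.dvd_or_dvd hd with h | h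
    · exact ot t ht h
    · exact ov h
  have hc : IsCoprime μ 2 := (hcop2 μ).2 hμ2
  have hN1 : 1 ≤ N := by have := hD.hN; omega
  have key : ∀ t ∈ T, ∀ j : ℕ, ∀ Q : Ideal ZZ, Npr Q → ¬ MP Q 2 →
      UP Q (Theta μ S (Tz f N (t * v) + pL la j)) ∧ UP Q (Theta μ S (Tz f N (t * v))) := by
    intro t ht j Q hQ hQ2
    obtain ⟨g1, g2, -, -⟩ := h2 f N μ (t * v) la j hD.hf hN1 oμ (otv t ht) ola
    exact ⟨h1 μ S hc hD.hS Q hQ _ g1.1 (g1.2 Q hQ hQ2),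
      h1 μ S hc hD.hS Q hQ _ g2.1 (g2.2 Q hQ hQ2)⟩
  refine ⟨fun Q hQ hQ2 => ?_, otv, rfl⟩
  have : Q.IsPrime := hQ.1
  refine ⟨?_, ?_, ?_, fun t ht => (key t ht 0 Q hQ hQ2).2⟩
  · exact UP.prod _ _ fun t ht => UP.prod _ _ fun j _ => (key t ht j Q hQ hQ2).1
  · exact UP.prod _ _ fun t ht => UP.prod _ _ fun j _ => (key t ht j Q hQ hQ2).1
  · exact UP.prod _ _ fun t ht => (key t ht 0 Q hQ hQ2).2

end Pool.Agent.DI.H3
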