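import Pool.Agent.Lib.DI.H3.Spec

set_option autoImplicit false

/-!
# Theorem DI, part H3: `h` is unramified outside `2 λ` (`S_hUnr`)
-/

namespace Pool.Agent.DI.H3

open Pool.Agent.MuZ Pool.Agent.FW Pool.Agent.DI NumberField IsDedekindDomain

open scoped Pointwise nonZeroDivisors

namespace UnrAux

theorem toC_inj {x y : OO} (h : toC x = toC y) : x = y := by
  have hs : √(7 : ℝ) ≠ 0 := (Real.sqrt_pos.2 (by norm_num)).ne'
  have h1 : (toC x).im = (toC y).im := by rw [h]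
  have h2 : (toC x).re = (toC y).re := by rw [h]
  rw [toC_apply, toC_apply] at h1 h2
  simp only [wC, Complex.add_im, Complex.add_re, Complex.mul_im, Complex.mul_re,
    Complex.intCast_re, Complex.intCast_im, zero_mul, add_zero, zero_add, sub_zero] at h1 h2
  have h3 : (x.im : ℝ) = y.im := by
    have h4 : ((x.im : ℝ) - y.im) * √(7 : ℝ) = 0 := by linarith
    rcases mul_eq_zero.1 h4 with h5 | h5
    · linarith
    · exact absurd h5 hs
  have h6 : (x.re : ℝ) = y.re := by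
    rw [h3] at h2
    linarith
  exact QuadraticAlgebra.ext (by exact_mod_cast h6) (by exact_mod_cast h3)

theorem la_ne {l : ℕ} {la : OO} (hl : l.Prime) (hla : Nm la = l) : toC la ≠ 0 := by
  intro h
  have h0 : la = 0 := toC_inj (h.trans (map_zero toC).symm)
  rw [h0] at hla
  have h1 : Nm (0 : OO) = 0 := by
    simp [Nm]
  rw [h1] at hla
  exact hl.ne_zero (by exact_mod_cast hla.symm)

end UnrAux

theorem tUnr (h1 : S_E1) (h2 : S_E4) (h3 : S_A0) (h4 : S_B3) (h5 : S_hFix) (h6 : S_hRdm)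
    (h7 : S_hLat) : S_hUnr := by
  intro f N l la r hD h hh P hP hPla ι hι hιL
  have hGK : ι ∈ GK := (((h5.1 f N hD.hf hD.h7).2.1 ι).1 hιL).1
  obtain ⟨a, ha⟩ := h1.1 ι hGK l hD.hl.pos
  obtain ⟨r1, r2, r3, r4, r5, r6, r7, r8, r9, r10, -⟩ := h6 f l la r hD
  obtain ⟨q1, q2, -, -, q5, q6, -⟩ := h7 f l la r hD
  have hla : toC la ≠ 0 := UnrAux.la_ne hD.hl hD.hla
  have hp1 : pL la 1 = 1 / toC la := by
    rw [pL, Nat.cast_one]
  obtain ⟨w1, w2⟩ := q2 1 one_pos hD.hl.one_lt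
  -- the inertia group fixes `X (1/λ)`
  have e1 : ι (xO (pL la 1)) = xO (pL la 1) := (h2 P hP ι hGK hι).1 la hPla _ w1
  have e2 : toC a * pL la 1 = toC (a * ((1 : ℕ) * cjO la)) / l := by
    rw [q5 1, map_mul toC a, mul_div_assoc]
  have e3 : ι (xO (pL la 1)) = xO (toC a * pL la 1) := by
    rw [e2, ← (ha.2 ((1 : ℕ) * cjO la)).1, ← q5 1]
  have t2 : Tor (toC a * pL la 1) := ⟨_, l, hD.hl.pos, e2⟩
  have e4 : XC (toC a * pL la 1) = XC (pL la 1) := by
    rw [← (h3 _ t2).1, ← (h3 _ (q6 1)).1, ← e3, e1]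
  -- `a / λ` is not in the lattice
  have hra : rd r a ≠ 0 := r7 a ha.1
  have : NeZero l := ⟨hD.hl.ne_zero⟩
  have w3 : ¬ Lat (toC a * pL la 1) := by
    obtain ⟨x, hx⟩ := q1 a 1 (rd r a).val (by
      rw [ZMod.natCast_val, ZMod.cast_id, Nat.cast_one, mul_one])
    have hpos : 0 < (rd r a).val := by
      rw [Nat.pos_iff_ne_zero]
      intro h0
      exact hra ((ZMod.val_eq_zero _).1 h0)
    have hn := (q2 (rd r a).val hpos (ZMod.val_lt _)).2
    rintro ⟨v, hv⟩
    apply hn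
    refine ⟨v - x, ?_⟩
    rw [map_sub, ← hv, hx]
    ring
  have hsq : IsSquare (rd r a) := by
    rcases ((h4.1 _ _ w3 w2).1 e4) with ⟨y, hy⟩ | ⟨y, hy⟩
    · have e5 : a - 1 = y * la := by
        apply UnrAux.toC_inj
        rw [map_sub, map_one, map_mul, ← hy, hp1]
        field_simp
      have e6 : rd r (a - 1) = 0 := (hD.hker _).2 ⟨y, by rw [e5, mul_comm]⟩
      rw [r3, r6, sub_eq_zero] at e6
      rw [e6]
      exact ⟨1, by ring⟩
    · have e5 : a + 1 = y * la := by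
        apply UnrAux.toC_inj
        rw [map_add, map_one, map_mul, ← hy, hp1]
        field_simp
      have e6 : rd r (a + 1) = 0 := (hD.hker _).2 ⟨y, by rw [e5, mul_comm]⟩
      rw [r2, r6] at e6
      rw [eq_neg_of_add_eq_zero_left e6]
      exact r10
  exact (hh ι hιL l a hD.hl.pos (dvd_refl l) ha).2 hsq

end Pool.Agent.DI.H3
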