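import Pool.Agent.Lib.DI.H3.CC
import Pool.Agent.Lib.DI.H3.Cng
import Pool.Agent.Lib.DI.H3.Eps
import Pool.Agent.Lib.DI.H3.Fin
import Pool.Agent.Lib.DI.H3.Fix
import Pool.Agent.Lib.DI.H3.Gd
import Pool.Agent.Lib.DI.H3.Hom
import Pool.Agent.Lib.DI.H3.Inr
import Pool.Agent.Lib.DI.H3.JP
import Pool.Agent.Lib.DI.H3.La
import Pool.Agent.Lib.DI.H3.Lat
import Pool.Agent.Lib.DI.H3.Leg
import Pool.Agent.Lib.DI.H3.NmK
import Pool.Agent.Lib.DI.H3.Nrm
import Pool.Agent.Lib.DI.H3.Prm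
import Pool.Agent.Lib.DI.H3.Ram
import Pool.Agent.Lib.DI.H3.Rdm
import Pool.Agent.Lib.DI.H3.Res
import Pool.Agent.Lib.DI.H3.TP
import Pool.Agent.Lib.DI.H3.Tra
import Pool.Agent.Lib.DI.H3.Uni
import Pool.Agent.Lib.DI.H3.Unr
import Pool.Agent.Lib.DI.T.Kap
import Pool.Agent.Lib.DI.Util.UCop
import Pool.Agent.Lib.DI.Util.UEx
import Pool.Agent.Lib.DI.Util.UHN
import Pool.Agent.Lib.DI.Util.UNm
import Pool.Agent.Lib.DI.Util.UPid

/-!
# Theorem DI, part H3: assembly, `S_KK`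
-/

set_option autoImplicit false

namespace Pool.Agent.DI.H3

open Pool.Agent.MuZ Pool.Agent.FW Pool.Agent.DI

theorem tKAP : S_KAP := fun F _ _ hh _ _ hw h0 h1 => kap_ex F hh hw h0 h1

/-- **Part H3.** Everything of part H3 that is left is imported from the other parts. -/
theorem tKK (hA0 : S_A0) (hB2 : S_B2) (hB3 : S_B3) (hD3 : S_D3) (hD5 : S_D5) (hD6 : S_D6)
    (hD7 : S_D7) (hD8 : S_D8) (hE1 : S_E1) (hE2 : S_E2) (hE4 : S_E4) (hE8 : S_E8) (hE9 : S_E9)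
    (hE15 : S_E15) (hG3 : S_G3) : S_KK := by
  have hUNm := tUNm
  have hUPid := tUPid
  have hUHN := tUHN
  have hUCop := tUCop
  have hUEx := tUEx
  have aRdm := tRdm hUNm
  have aTP := tTP tPrm hUHN hUCop
  have aJP := tJP aRdm
  have aLa := tLa hUNm hUPid
  have aLat := tLat aRdm
  have aGd := tGd hUNm hUEx hUCop
  have aCC := tCC hD7 hE15 aLat hUCop
  have aFix := tFix hE8 hE1 hE9 hUHN hUCop
  have aEps := tEps hE15 hD8 aTP aRdm aJP aLat hUCop hUEx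
  have aUni := tUni hD5 aGd hUCop hUNm
  have aNrm := tNrm aUni aGd aRdm aTP hD8 hG3 hUNm hUEx
  have aCng := tCng hD3 hD6 aLat aGd aUni aRdm hUNm hUCop hUHN
  have aHom := tHom hE1 hB2 aFix aRdm hUCop
  have aUnr := tUnr hE1 hE4 hA0 hB3 aFix aRdm aLat
  have aInr := tInr tNmK
  have aRam := tRam aInr hE1 hE4 hD3 hB2 tPrm aFix aRdm aLat hUHN
  have aTra := tTra tNmK
  have aRes := tRes hE1 hE2 hG3 aLa aCC aFix aEps aUni aNrm aCng tLeg aHom aUnr aRam aTra hUHN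
    hUCop
  exact tFin aRes tKAP

end Pool.Agent.DI.H3
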