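import Pool.Agent.Lib.DI.H3.Spec

set_option autoImplicit false

/-!
# Theorem DI, part H3, module `CC`: the constant of the distribution relation
-/

open scoped Pointwise nonZeroDivisors

noncomputable section

namespace Pool.Agent.DI.H3

open Pool.Agent.MuZ Pool.Agent.FW Pool.Agent.DI NumberField IsDedekindDomain

namespace CCAux

theorem natO_re (n : ℕ) : ((n : OO)).re = (n : ℤ) := rfl

theorem natO_im (n : ℕ) : ((n : OO)).im = 0 := rfl

end CCAux

theorem tCC (h1 : S_D7) (h2 : S_E15) (h3 : S_hLat) (h4 : S_UCop) : S_hCC := by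
  intro f N μ S T v l la r hD
  obtain ⟨hC1, -, -, hC4, -, -, hC7, -⟩ := h4
  have hμ2 : IsCoprime μ 2 := (hC7 μ).2 ((hC4 μ 2 f).1 hD.hμ).1
  have hla0 : la ≠ 0 := by
    intro h
    have h5 := hD.hla
    rw [h] at h5
    have h6 : Nm (0 : OO) = 0 := by
      change (0 : ℤ) ^ 2 + 0 * 0 + 2 * 0 ^ 2 = 0
      norm_num
    rw [h6] at h5
    have := hD.hl.pos
    omega
  have hdvd : la ∣ (l : OO) := by
    rw [← hD.hker]
    unfold rd
    rw [CCAux.natO_re, CCAux.natO_im]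
    simp
  have hcop : IsCoprime la μ := by
    have h5 : IsCoprime μ (l : OO) := (hC1 μ l).1 hD.hlμ
    exact (IsCoprime.of_isCoprime_of_dvd_right h5 hdvd).symm
  obtain ⟨c, hc0, hcU, hcR⟩ := h1 μ S hμ2 hD.hS la hla0 hcop
  obtain ⟨-, -, hsys, hinj, -⟩ := h3 f l la r hD.toDatL
  refine ⟨c, (h2 μ S hμ2 hD.hS).2 la c hla0 hcop hcR, hc0, hcU, ?_⟩
  intro z hz hz'
  have h6 := hcR _ hsys z hz hz'
  rw [Finset.prod_image hinj] at h6
  exact h6

end Pool.Agent.DI.H3
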