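import Pool.Agent.Lib.DI.H3.Spec

/-!
# THEOREM DI, part H3: products over representatives
-/

set_option autoImplicit false

namespace Pool.Agent.DI.H3

open Pool.Agent.MuZ Pool.Agent.FW Pool.Agent.DI NumberField IsDedekindDomain
open scoped Pointwise nonZeroDivisors

theorem tPrm : S_hPrm := by
  intro α M _ T R e G hs ht hex huni hG
  choose p hpT hp using hex
  have hinj : ∀ a₁ (ha₁ : a₁ ∈ T) a₂ (ha₂ : a₂ ∈ T), p a₁ ha₁ = p a₂ ha₂ → a₁ = a₂ := by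
    intro a₁ ha₁ a₂ ha₂ h
    have h1 := hp a₁ ha₁
    rw [h] at h1
    exact huni a₁ ha₁ a₂ ha₂ (ht _ _ _ h1 (hs _ _ (hp a₂ ha₂)))
  have hsurj : ∀ b ∈ T, ∃ a, ∃ ha : a ∈ T, b = p a ha := fun b hb =>
    Finset.surj_on_of_inj_on_of_card_le p hpT (fun a₁ a₂ ha₁ ha₂ h => hinj a₁ ha₁ a₂ ha₂ h)
      le_rfl b hb
  refine Finset.prod_bij p hpT hinj (fun b hb => ?_) fun a ha => hG _ _ (hp a ha)
  obtain ⟨a, ha, h⟩ := hsurj b hb
  exact ⟨a, ha, h.symm⟩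

end Pool.Agent.DI.H3
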