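import Pool.Agent.Lib.DI.Val
import Pool.Agent.Lib.DI.Iface
import Pool.Agent.Lib.DI.Util.Spec

set_option autoImplicit false

/-!
# Theorem DI, part H3: the auxiliary quadratic extension `MM / F` (note 4054, H3, H4)

`F = Ln f N`, `Q` a prime of `ZZ` over the prime number `l`, `φ ∈ Gal(Om/F)` with `φ x ≡ x ^ l mod Q`,
`λ` the prime element of `O` below `Q`, `Nm λ = l`. `h : Gal(Om/F) → F_2` is `0` iff the automorphism
acts on the `λ`-torsion as the multiplication by a SQUARE (modulo `λ`); `MM` = its field.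
`w = ε_s / c ^ (|T|/2)`, `ε_s = ∏_{t ∈ T} ∏_{j square} Θ(t v/(f 2^N) + j/λ)`.
Result: `τ w = w` or `w⁻¹` according to `h τ`; `w` is a unit outside `2`; `w ≡ (-1)^(kap u φ') mod P` for
all `P` over `λ`; `MM/F` is ramified exactly at the primes over `λ` (outside `2`). With `S_KAP` (helper8,
Hilbert 90) this gives `S_KK` of the interface.

Every `S_h...` below is a statement with a complete proof in its docstring, to be proved in the module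
`DI/H3/<...>.lean` as a theorem `t<...>` whose hypotheses are the statements named at the end of the
docstring (USES): `S_h..` of this file, `S_U..` of `DI/Util/Spec.lean`, the others of `DI/Iface.lean`
(these are NOT to be proved here). Shared lemmas on `V_P`: `DI/Val.lean`.
-/

open scoped Pointwise nonZeroDivisors

noncomputable section

namespace Pool.Agent.DI.H3

open Pool.Agent.MuZ Pool.Agent.FW Pool.Agent.DI NumberField IsDedekindDomain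

/-- The reduction `O → F_l`, `w ↦ r` (a ring homomorphism if `r ^ 2 = r - 2`). -/
def rd {l : ℕ} (r : ZMod l) (x : OO) : ZMod l := (x.re : ZMod l) + (x.im : ZMod l) * r

/-- The point `j / λ`. -/
def pL (la : OO) (j : ℕ) : ℂ := (j : ℂ) / toC la

/-- The point `x / (f 2 ^ N)`. -/
def Tz (f N : ℕ) (x : OO) : ℂ := toC x / (f * 2 ^ N : ℕ)

/-- The condition on `z` under which `Θ(z)` is a unit outside `2` (hypothesis of `S_D5`, `S_D6`). -/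
def Gd (μ : OO) (z : ℂ) : Prop := Tor z ∧ ∀ Q : Ideal ZZ, Npr Q → ¬ MP Q 2 →
  ∀ u : ℂ, Lat (toC μ * u) → ¬ Qp Q (z + u)

open Classical in
/-- The nonzero squares modulo `l`. -/
def Sqs (l : ℕ) : Finset ℕ :=
  (Finset.range l).filter fun j => (j : ZMod l) ≠ 0 ∧ IsSquare (j : ZMod l)

open Classical in
/-- The nonsquares modulo `l`. -/
def Nsq (l : ℕ) : Finset ℕ := (Finset.range l).filter fun j => ¬ IsSquare (j : ZMod l)

/-- `∏_{t ∈ T} ∏_{j ∈ J} Θ(t v / (f 2^N) + j/λ)`. -/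
def epq (f N : ℕ) (μ : OO) (S : Finset ℂ) (T : Finset OO) (v la : OO) (J : Finset ℕ) : Om :=
  ∏ t ∈ T, ∏ j ∈ J, Theta μ S (Tz f N (t * v) + pL la j)

/-- `λ` is a prime element of norm `l`, `l = 1 mod 4`, `l` prime to `14 f`, `r` the image of `w`
modulo `λ`. -/
structure DatL (f : ℕ) (l : ℕ) (la : OO) (r : ZMod l) : Prop where
  hf : Odd f
  h7 : 7 ∣ f
  hl : l.Prime
  hl4 : l % 4 = 1
  hl7 : l ≠ 7
  hlf : l.Coprime f
  hla : Nm la = l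
  hr : r ^ 2 = r - 2
  hker : ∀ x : OO, rd r x = 0 ↔ la ∣ x

/-- The data. -/
structure Dat (f N : ℕ) (μ : OO) (S : Finset ℂ) (T : Finset OO) (v : OO) (l : ℕ) (la : OO)
    (r : ZMod l) : Prop extends DatL f l la r where
  hN : 2 ≤ N
  hμ : Cop μ (2 * f)
  hS : IsHalf μ S
  hT : IsRep f N T
  hv : Cop v (2 * f)
  hlμ : Cop μ l
  hHN : HN f N la

/-- The property of the homomorphism `h`. -/
def IsH (f N l : ℕ) (r : ZMod l) (h : Gal(Om/ℚ) → ZMod 2) : Prop :=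
  ∀ τ ∈ (Ln f N).fixingSubgroup, ∀ (M : ℕ) (a : OO), 0 < M → l ∣ M → Psi τ M a →
    (h τ = 0 ↔ IsSquare (rd r a))

/-- The property of the constant `c` of the distribution relation for `λ`. -/
def IsC (μ : OO) (S : Finset ℂ) (l : ℕ) (la : OO) (c : Om) : Prop :=
  c ∈ KQ ∧ c ≠ 0 ∧ (∀ Q : Ideal ZZ, Npr Q → UP Q c) ∧
    ∀ z : ℂ, Tor z → ¬ Lat (toC (la * μ) * z) →
      ∏ j ∈ Finset.range l, Theta μ S (z + pL la j) = c * Theta μ S (toC la * z)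

/-- **KAP** (Hilbert 90 and parity; helper8, `DI/T/Kap.lean`). -/
def S_KAP : Prop := ∀ (F : IntermediateField ℚ Om) [NumberField F] (h : Gal(Om/ℚ) → ZMod 2),
  h ∈ VV 2 ∅ F.fixingSubgroup → h ≠ 0 → ∀ w : Om, w ≠ 0 →
  (∀ τ ∈ F.fixingSubgroup, h τ = 0 → τ w = w) →
  (∀ τ ∈ F.fixingSubgroup, h τ = 1 → τ w * w = 1) →
  ∃ k : F, k ≠ 0 ∧ ∀ (v : HeightOneSpectrum (𝓞 F)) (Q : Ideal ZZ), Ab F Q v → (2 : ZZ) ∉ Q →
    UP Q w →
      ((∀ τ ∈ Q.inertia Gal(Om/ℚ), τ ∈ F.fixingSubgroup → h τ = 0) → Even (vl F v k)) ∧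
      ((∃ τ ∈ Q.inertia Gal(Om/ℚ), τ ∈ F.fixingSubgroup ∧ h τ = 1) →
        (Even (vl F v k) ∧ MP Q (w - 1)) ∨ (Odd (vl F v k) ∧ MP Q (w + 1)))

/-! ## Elementary statements -/

/-- (50 lines, module `Prm`) **Products over representatives.** PROOF. For `t ∈ T` let `p t ∈ T` with
`R (e t) (p t)`. If `p t = p t'` then `R (e t) (e t')` (symmetry, transitivity), so `t = t'`.
So `p : T → T` is injective, hence bijective, and `G (e t) = G (p t)`: `Finset.prod_bij`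
(surjectivity from `Finset.surj_on_of_inj_on_of_card_le` or `Finite.injective_iff_surjective`). -/
def S_hPrm : Prop := ∀ (α M : Type) [CommMonoid M] (T : Finset α) (R : α → α → Prop)
  (e : α → α) (G : α → M), (∀ x y, R x y → R y x) → (∀ x y z, R x y → R y z → R x z) →
  (∀ t ∈ T, ∃ t' ∈ T, R (e t) t') → (∀ t ∈ T, ∀ t' ∈ T, R (e t) (e t') → t = t') →
  (∀ x y, R x y → G x = G y) → ∏ t ∈ T, G (e t) = ∏ t ∈ T, G t

/-- (80 lines, module `TP`) **Permutation of `T`.** PROOF. `S_hPrm` with `m = f 2 ^ N`, `R x y` :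
`m ∣ x - y` or `m ∣ x + y`, `e t = a t`: for `t ∈ T`, `a t ∈ H_N` (`S_UHN`) and `IsRep.ex` gives `t'`. If
`m ∣ a t - a t'` or `m ∣ a t + a t'`: `a` is prime to `m` (`Cop`, `S_UHN`), so `m ∣ t ∓ t'` (`S_UCop`:
`IsCoprime a m`, `IsCoprime.dvd_of_dvd_mul_left`), so `t = t'` by `IsRep.uni`. `G x = G y` if `R x y`:
`x = y + m z` or `x = -y + m z`. USES `S_hPrm`, `S_UHN`, `S_UCop`. -/
def S_hTP : Prop := ∀ (f N : ℕ) (T : Finset OO) (a : OO) (G : OO → Om), Odd f → 7 ∣ f →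
  IsRep f N T → HN f N a → (∀ x, G (-x) = G x) →
  (∀ x y : OO, G (x + (f * 2 ^ N : ℕ) * y) = G x) → ∏ t ∈ T, G (a * t) = ∏ t ∈ T, G t

/-- (120 lines, module `Rdm`) **The reduction modulo `λ` and squares.** PROOF. (1) - (5): direct
(`r ^ 2 = r - 2`). (6) `l` divides `Nm a` if `λ ∣ a` (`S_UNm`), so `Cop a l` gives `rd r a ≠ 0`. (7) `ZMod l` is a
field (`l` prime) in which `-1` is a square (`l % 4 = 1`: `ZMod.exists_sq_eq_neg_one_iff`); the product of two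
nonzero elements is a square iff both or none are squares (`quadraticChar`). (8) `Sqs l` has `(l - 1)/2`
elements (`x ↦ x ^ 2` is two to one on the nonzero elements; or `Nsq l` is the image of `Sqs l` under the
multiplication by one nonsquare, and `FiniteField.exists_nonsquare`). (9) `range l` is the disjoint
union of `{0}`, `Sqs l`, `Nsq l`. (10) `j ↦ l - j` is an involution of `Sqs l` which exchanges
the `j` with `2 j < l` and the `j` with `2 j > l` (`l` odd). USES `S_UNm`. -/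
def S_hRdm : Prop := ∀ (f l : ℕ) (la : OO) (r : ZMod l), DatL f l la r →
  (∀ x y : OO, rd r (x * y) = rd r x * rd r y) ∧ (∀ x y : OO, rd r (x + y) = rd r x + rd r y) ∧
  (∀ x y : OO, rd r (x - y) = rd r x - rd r y) ∧ (∀ x : OO, rd r (-x) = - rd r x) ∧
  (∀ n : ℕ, rd r (n : OO) = n) ∧ rd r (1 : OO) = 1 ∧
  (∀ a : OO, Cop a l → rd r a ≠ 0) ∧ la * cjO la = (l : OO) ∧
  (∀ x y : ZMod l, x ≠ 0 → y ≠ 0 → (IsSquare (x * y) ↔ (IsSquare x ↔ IsSquare y))) ∧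
  IsSquare (-1 : ZMod l) ∧ (Sqs l).card = (l - 1) / 2 ∧
  (∀ g : ℕ → Om, ∏ j ∈ Finset.range l, g j = g 0 * (∏ j ∈ Sqs l, g j) * ∏ j ∈ Nsq l, g j) ∧
  ∀ g : ℕ → Om, (∀ j ∈ Sqs l, g (l - j) = g j) →
    ∏ j ∈ Sqs l, g j = (∏ j ∈ (Sqs l).filter (fun j => 2 * j < l), g j) ^ 2

/-- (100 lines, module `JP`) **Permutation of the squares and nonsquares.** `G : ℕ → Om` only depends on the
residue: for `a` with `rd r a ≠ 0` let `j ↦ a j` be the permutation of `[0, l)` with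
`(a j : ZMod l) = rd r a * j`. PROOF. `j ↦ (rd r a * j : ZMod l).val` is injective on `[0, l)` and maps
`Sqs l` to `Sqs l` or `Nsq l` (`S_hRdm` (7)) and conversely; its inverse is given by `(rd r a)⁻¹`
(`Finset.prod_bij'`). In Lean: `x : ZMod l` instead of `rd r a`. USES `S_hRdm`. -/
def S_hJP : Prop := ∀ (f l : ℕ) (la : OO) (r : ZMod l), DatL f l la r → ∀ (x : ZMod l) (G : ℕ → Om),
  x ≠ 0 → (IsSquare x → ∏ j ∈ Sqs l, G ((x * (j : ZMod l)).val) = ∏ j ∈ Sqs l, G j) ∧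
    (IsSquare x → ∏ j ∈ Nsq l, G ((x * (j : ZMod l)).val) = ∏ j ∈ Nsq l, G j) ∧
    (¬ IsSquare x → ∏ j ∈ Sqs l, G ((x * (j : ZMod l)).val) = ∏ j ∈ Nsq l, G j) ∧
    (¬ IsSquare x → ∏ j ∈ Nsq l, G ((x * (j : ZMod l)).val) = ∏ j ∈ Sqs l, G j)

/-- (120 lines, module `La`) **The prime element `λ`.** PROOF. `τ` fixes `wO` (`GK`), which is in `ZZ` (root of
`X ^ 2 - X + 2`), so `wO ^ l - wO ∈ Q`. The elements `y` of the domain `ZZ ⧸ Q` with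
`y ^ l = y` are the images of the integers: they are `l` different roots of `X ^ l - X` (`Q ∩ ℤ = (l)`). So
there is an integer `r₀` with `wO - r₀ ∈ Q`; `r = r₀ mod l` satisfies `r ^ 2 = r - 2`
(`r₀ ^ 2 - r₀ + 2 ∈ Q ∩ ℤ = l ℤ`). For `x ∈ O`: `toO x - (x.re + x.im r₀) ∈ Q`, so `MP Q (toO x)` iff
`rd r x = 0` (`MP.coe_iff`). `I = {x : rd r x = 0}` is an ideal of `O`, principal by `S_UPid`,
`I = (λ)`. `l ∈ I`, so `λ ∣ l` and `Nm λ ∣ l ^ 2` (`S_UNm`). `Nm λ ≠ 1` (otherwise `λ` is a unit and `1 ∈ I`);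
if `Nm λ = l ^ 2` then `l = λ u` with `Nm u = 1`, `u` a unit, so `l` divides all elements of `I`, but
`w - r₀ ∈ I` is not divisible by `l` (coordinate `1`). So `Nm λ = l`. USES `S_UNm`, `S_UPid`. -/
def S_hLa : Prop := ∀ l : ℕ, l.Prime → ∀ Q : Ideal ZZ, Npr Q → (l : ZZ) ∈ Q →
  ∀ τ ∈ GK, (∀ x : ZZ, τ • x - x ^ l ∈ Q) →
  ∃ (la : OO) (r : ZMod l), Nm la = l ∧ r ^ 2 = r - 2 ∧ (∀ x : OO, rd r x = 0 ↔ la ∣ x) ∧
    ∀ x : OO, MP Q (toO x) ↔ la ∣ x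

/-- (100 lines, module `Lat`) **The points `j/λ`.** PROOF. (1) `a (j/λ) - j'/λ = (a j - j')/λ` and
`rd r (a j - j') = 0`, so `λ ∣ a j - j'`. (2) `λ (j/λ) = j`; if `j/λ ∈ O`, `0 < j < l`, then `λ ∣ j`,
`rd r j = j = 0` in `ZMod l`. (3) `IsSys`: a point `z` with `λ z = toC x`: `x ≡ j mod λ` for the residue `j` of
`rd r x`. (4) injective. (5) `1/λ = cjO λ / l` (`S_hRdm` (8)). USES `S_hRdm`. -/
def S_hLat : Prop := ∀ (f l : ℕ) (la : OO) (r : ZMod l), DatL f l la r →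
  (∀ (a : OO) (j j' : ℕ), (j' : ZMod l) = rd r a * j → ∃ x : OO, toC a * pL la j = pL la j' + toC x) ∧
  (∀ j : ℕ, 0 < j → j < l → Lat (toC la * pL la j) ∧ ¬ Lat (pL la j)) ∧
  IsSys la ((Finset.range l).image (pL la)) ∧ Set.InjOn (pL la) (Finset.range l : Set ℕ) ∧
  (∀ j : ℕ, pL la j = toC (j * cjO la) / l) ∧ (∀ j : ℕ, Tor (pL la j)) ∧
  ∀ j : ℕ, j ≤ l → ∃ x : OO, pL la (l - j) = - pL la j + toC x

/-- (100 lines, module `Gd`) **Good points.** PROOF. Let `z = x/(f 2^N) + j/λ`, `u` with `μ u ∈ O`, `Q` not over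
`2`. Let `α = 2 ^ N`, `β = f λ μ`. `¬ MP Q (toO α)`. `β (z + u) = λ μ x / 2^N + (element of O)` is not in `O`,
because otherwise `2 ^ N ∣ λ μ x` (`S_UEx`) and `2 ∣ λ μ x`, but the norm `Nm λ Nm μ Nm x` is odd;
`α β (z + u) ∈ O`. So `z + u` is not `Q`-primary. The case without `j/λ` is `j = 0`. (3) the same
computation: `f λ μ (Tz x) = λ μ x / 2^N`. USES `S_UNm`, `S_UEx`, `S_UCop`. -/
def S_hGd : Prop := ∀ (f N : ℕ) (μ x la : OO) (j : ℕ), Odd f → 1 ≤ N → ¬ (2 : ℤ) ∣ Nm μ →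
  ¬ (2 : ℤ) ∣ Nm x → ¬ (2 : ℤ) ∣ Nm la →
  Gd μ (Tz f N x + pL la j) ∧ Gd μ (Tz f N x) ∧ ¬ Lat (toC (la * μ) * Tz f N x) ∧
    ¬ Lat (toC (la * μ) * (Tz f N x + pL la j))

/-- (60 lines, module `CC`) **The constant.** PROOF. `S_D7` for `α = λ` (coprime to `μ`: `Nm μ` is prime to
`l`), with the system `R = (range l).image (pL la)` (`S_hLat`), `Finset.prod_image`; `c ∈ KQ` by
`S_E15`. USES `S_D7`, `S_E15`, `S_hLat`, `S_UCop`. -/
def S_hCC : Prop := ∀ (f N : ℕ) (μ : OO) (S : Finset ℂ) (T : Finset OO) (v : OO) (l : ℕ) (la : OO)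
  (r : ZMod l), Dat f N μ S T v l la r → ∃ c : Om, IsC μ S l la c

/-- (100 lines, module `Fix`) **Galois theory of `L_n`.** PROOF. `S_E8` with `N := f 2^N`, `H = HN f N`
(conditions from `S_UHN`). `τ ∈ (Ln f N).fixingSubgroup` fixes `KQ ≤ Ln f N`, so it is in `GK`, and for
`Psi τ (f 2^N) a` the last part of `S_E8` gives `HN f N a`. Conversely choose `a` by `S_E1`. (3) `Ln f N` is
stable under `σ⁻¹` (`S_E9`): for `x` in it, `σ⁻¹ x` is fixed by `τ`, so `x` is fixed by `σ τ σ⁻¹`. (4) `Psi τ (m k) a` implies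
`Psi τ m a`: `toC v / m = toC (k v) / (m k)`, and `Cop a (m k) → Cop a m` (`S_UCop`). USES `S_E8`, `S_E1`, `S_E9`,
`S_UHN`, `S_UCop`. -/
def S_hFix : Prop := (∀ f N : ℕ, Odd f → 7 ∣ f → FiniteDimensional ℚ (Ln f N) ∧
    (∀ τ : Gal(Om/ℚ), τ ∈ (Ln f N).fixingSubgroup ↔
      τ ∈ GK ∧ ∀ a : OO, Psi τ (f * 2 ^ N) a → HN f N a) ∧
    ∀ σ ∈ GK, ∀ τ ∈ (Ln f N).fixingSubgroup, σ * τ * σ⁻¹ ∈ (Ln f N).fixingSubgroup) ∧
  ∀ (τ : Gal(Om/ℚ)) (m k : ℕ) (a : OO), 0 < m → 0 < k → Psi τ (m * k) a → Psi τ m a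

/-! ## The unit `w` -/

/-- (200 lines, module `Eps`) **Galois action on `ε`.** PROOF. Let `n = (Nm μ).toNat`, `M = f 2^N l`. For `t ∈ T`
put `z_t = Tz f N (t v)`; `z_t + j/λ = toC x / M` for some `x ∈ O` (`S_hLat` (5)). By `S_E15`:
`τ Θ(z_t + j/λ) = Θ(toC (a x) / M) = Θ(a z_t + a j/λ)`, `a z_t = Tz f N (a t v)`. For `j < l` let
`j' = (rd r a * j : ZMod l).val`; then `a j/λ = j'/λ + (element of O)` (`S_hLat` (1)), so by the
periodicity (`S_D8`) `Θ(a z_t + a j/λ) = Θ(Tz f N (a t v) + j'/λ)`. So by `S_hJP` with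
`G j = Θ(Tz f N (a t v) + j/λ)`: `τ (∏_{j ∈ J} Θ(z_t + j/λ)) = ∏_{j ∈ J'} Θ(Tz f N (a t v) + j/λ)` with
`J' = J` if `rd r a` is a square, and `{J, J'} = {Sqs l, Nsq l}` otherwise (`rd r a ≠ 0`: `S_hRdm` (6), as
`a` is prime to `M n`). Finally `S_hTP` with `G x = ∏_{j ∈ J'} Θ(Tz f N (x v) + j/λ)`: periodic modulo
`f 2^N` (`S_D8`), even: `Θ(-Tz(x v) + j/λ) = Θ(Tz (x v) - j/λ) = Θ(Tz (x v) + (l - j)/λ)` (`S_D8`, `S_hLat` (7)),
and `S_hJP` for `x = -1` (a square). (All points are torsion points, needed in `S_D8`.) USES `S_E15`,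
`S_D8`, `S_hTP`, `S_hRdm`, `S_hJP`, `S_hLat`, `S_UCop`, `S_UNm`, `S_UEx`. -/
def S_hEps : Prop := ∀ (f N : ℕ) (μ : OO) (S : Finset ℂ) (T : Finset OO) (v : OO) (l : ℕ) (la : OO)
  (r : ZMod l), Dat f N μ S T v l la r → ∀ τ ∈ GK, ∀ a : OO,
    Psi τ (f * 2 ^ N * l * (Nm μ).toNat) a → HN f N a →
    (IsSquare (rd r a) → τ (epq f N μ S T v la (Sqs l)) = epq f N μ S T v la (Sqs l) ∧
      τ (epq f N μ S T v la (Nsq l)) = epq f N μ S T v la (Nsq l)) ∧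
    (¬ IsSquare (rd r a) → τ (epq f N μ S T v la (Sqs l)) = epq f N μ S T v la (Nsq l) ∧
      τ (epq f N μ S T v la (Nsq l)) = epq f N μ S T v la (Sqs l))

/-- (60 lines, module `Uni`) **Units.** PROOF. `S_D5` (`IsCoprime μ 2` by `S_UCop`) for all factors, with `S_hGd`:
`Nm (t v)` is odd (`Nm v` is prime to `2`; `Nm t ≡ ±1 mod 2 ^ N`), `Nm λ = l` is odd; `UP.prod`;
`uN f N μ S T v = ∏_{t ∈ T} Θ(Tz f N (t v))` by definition. USES `S_D5`, `S_hGd`, `S_UCop`,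
`S_UNm`. -/
def S_hUni : Prop := ∀ (f N : ℕ) (μ : OO) (S : Finset ℂ) (T : Finset OO) (v : OO) (l : ℕ) (la : OO)
  (r : ZMod l), Dat f N μ S T v l la r → (∀ Q : Ideal ZZ, Npr Q → ¬ MP Q 2 →
    UP Q (epq f N μ S T v la (Sqs l)) ∧ UP Q (epq f N μ S T v la (Nsq l)) ∧
    UP Q (uN f N μ S T v) ∧ ∀ t ∈ T, UP Q (Theta μ S (Tz f N (t * v)))) ∧
  (∀ t ∈ T, ¬ (2 : ℤ) ∣ Nm (t * v)) ∧ uN f N μ S T v = ∏ t ∈ T, Theta μ S (Tz f N (t * v))

/-- (100 lines, module `Nrm`) **The norm.** PROOF. For `t ∈ T`, `z_t = Tz f N (t v)`: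
`Θ(z_t) (∏_{Sqs} Θ(z_t + j/λ)) (∏_{Nsq} Θ(z_t + j/λ)) = ∏_{j < l} Θ(z_t + j/λ) = c Θ(λ z_t)` (`S_hRdm` (9) with
`pL la 0 = 0`; `IsC`, `S_hGd` (3)). Take the product over `t ∈ T`: `u ε_s ε_n = c ^ |T| ∏_t Θ(Tz (λ t v))`, and the
last product is `u` by `S_hTP` with `a = λ` (`hHN`), `G x = Θ(Tz (x v))` (even, periodic by `S_D8`).
`u ≠ 0` (`S_G3`, or a product of units). USES `S_hUni`, `S_hGd`, `S_hRdm`, `S_hTP`, `S_D8`, `S_G3`, `S_UNm`,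
`S_UEx`. -/
def S_hNrm : Prop := ∀ (f N : ℕ) (μ : OO) (S : Finset ℂ) (T : Finset OO) (v : OO) (l : ℕ) (la : OO)
  (r : ZMod l), Dat f N μ S T v l la r → ∀ c : Om, IsC μ S l la c →
    epq f N μ S T v la (Sqs l) * epq f N μ S T v la (Nsq l) = c ^ T.card

/-- (150 lines, module `Cng`) **The congruence for `w`.** PROOF. (0) `¬ MP P 2`, `¬ MP P (toO μ)`: `l` is in `P`
and prime to `2` and to `Nm μ` (`μ cjO μ = Nm μ`). (1) For `0 < j < l`: `λ (j/λ) ∈ O`, `j/λ ∉ O` (`S_hLat`), so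
`IZ P (j/λ)` (`S_D3`) and `Θ(z_t + j/λ) ≡ Θ(z_t)` modulo `MP P` by `S_D6` (first part; `z_t` is good, `S_hGd`).
(2) Products of congruent elements of `V_P` are congruent (lemma; `Finset` induction). So
`∏_{j < l} Θ(z_t + j/λ) ≡ Θ(z_t) ^ l` and `ε_s ≡ ∏_t Θ(z_t) ^ ((l-1)/2) = u ^ ((l-1)/2)`. (3) `S_D6` (second
part): `Θ(λ z_t) ≡ Θ(z_t) ^ l`. So (for one `t ∈ T`; `T` is not empty as `1 ∈ H_N`)
`c Θ(λ z_t) = ∏_{j<l} Θ(z_t + j/λ) ≡ Θ(λ z_t)`, and `Θ(λ z_t)` is a unit (it is congruent to the unit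
`Θ(z_t)^l`), hence `c - 1 ∈ MP P`, `c ^ (|T|/2) ≡ 1` and `w = ε_s / c ^ (|T|/2) ≡ u ^ ((l-1)/2)`. USES `S_D3`, `S_D6`,
`S_hLat`, `S_hGd`, `S_hUni`, `S_hRdm`, `S_UNm`, `S_UCop`, `S_UHN`. -/
def S_hCng : Prop := ∀ (f N : ℕ) (μ : OO) (S : Finset ℂ) (T : Finset OO) (v : OO) (l : ℕ) (la : OO)
  (r : ZMod l), Dat f N μ S T v l la r → ∀ c : Om, IsC μ S l la c →
    ∀ P : Ideal ZZ, Npr P → (l : ZZ) ∈ P → MP P (toO la) →
      MP P (epq f N μ S T v la (Sqs l) / c ^ (T.card / 2) - uN f N μ S T v ^ ((l - 1) / 2))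

/-- (80 lines, module `Leg`) **The Legendre symbol of `u`.** `u ≠ 0` a unit at `P`, fixed by `ψ`, `ψ` a Frobenius
element at `P` for the odd exponent `l`. PROOF. `s = sqr u`, `s ^ 2 = u`, a unit at `P` (`UP.of_pow`), `ψ s = ± s`
(its square is `u`), with the sign `+` iff `kap u ψ = 0` (definition), and `ψ s ≡ s ^ l = s u ^ ((l-1)/2)`
(`VP.frob`); divide by the unit `s`. (2) `σ` any automorphism: `(σ φ σ⁻¹) (sqr u) = sqr u` iff
`φ (σ⁻¹ (sqr u)) = σ⁻¹ (sqr u)`, and `σ⁻¹ (sqr u) = ± sqr (σ⁻¹ u)` (equal squares). -/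
def S_hLeg : Prop :=
  (∀ (l : ℕ) (P : Ideal ZZ) (u : Om) (ψ : Gal(Om/ℚ)), Odd l → Npr P → UP P u → ψ u = u →
    (∀ x : ZZ, ψ • x - x ^ l ∈ P) →
    (kap u ψ = 0 → MP P (u ^ ((l - 1) / 2) - 1)) ∧ (kap u ψ ≠ 0 → MP P (u ^ ((l - 1) / 2) + 1))) ∧
  ∀ (u : Om) (σ φ : Gal(Om/ℚ)), u ≠ 0 → kap u (σ * φ * σ⁻¹) = kap (σ⁻¹ u) φ

/-! ## The homomorphism `h` -/

/-- (150 lines, module `Hom`) **The quadratic character.** PROOF. Define `h τ = 0` for `τ ∉ Gal(Om/F)`; for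
`τ ∈ Gal(Om/F)` choose `a` with `Psi τ l a` (`S_E1`; `τ ∈ GK` by `S_hFix`) and let `h τ = 0` if `rd r a` is a
square, `1` otherwise. It does not depend on `a`: `l ∣ a - a'` (`S_E1`), so `rd r a = rd r a'`.
`Psi τ M a`, `l ∣ M`, implies `Psi τ l a` (`S_hFix`). Additivity: if `Psi τ l a`, `Psi σ l b` then
`Psi (τ σ) l (a b)` (definition; `S_UCop`); `rd r (a b) = rd r a rd r b`, both nonzero; `S_hRdm` (7).
Locally constant: let `E` be the field generated over `ℚ` by the finitely many elements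
`xO (toC x / l)`, `yO (toC x / l)` for `x` with coordinates in `[0, l)`, a number field,
`E.fixingSubgroup` is an open subgroup (`IntermediateField.fixingSubgroup_isOpen`); for
`τ ∈ Gal(Om/F) ∩ E.fixingSubgroup`: `Psi τ l 1` (`xO`, `yO` are periodic: `S_B2`, definition of `xO`), so
`h τ = 0`. The set `∅` of local groups: no further condition. USES `S_E1`, `S_B2`, `S_hFix`, `S_hRdm`,
`S_UCop`. -/
def S_hHom : Prop := ∀ (f N : ℕ) (l : ℕ) (la : OO) (r : ZMod l), DatL f l la r →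
  ∃ h ∈ VV 2 ∅ (Ln f N).fixingSubgroup, IsH f N l r h

/-- (80 lines, module `Unr`) **`h` is unramified outside `2 λ`.** PROOF. `ι ∈ GK` (`S_hFix`), `Psi ι l a`
(`S_E1`). `S_E4` with `δ = λ`, `z = 1/λ` (`pL la 1`): `ι (xO (1/λ)) = xO (1/λ)`; `1/λ = toC (cjO λ) / l`, so
`xO (a/λ) = xO (1/λ)`; apply `io` (`S_A0`): `XC (a/λ) = XC (1/λ)`, both points not in the lattice (`rd r a ≠ 0`;
`a/λ = pL la a' + O`, `S_hLat`), so `S_B3`: `a/λ - 1/λ` or `a/λ + 1/λ` is in `O`, i.e. `λ ∣ a - 1` or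
`λ ∣ a + 1`, `rd r a = ±1`, a square. USES `S_E1`, `S_E4`, `S_A0`, `S_B3`, `S_hFix`, `S_hRdm`, `S_hLat`. -/
def S_hUnr : Prop := ∀ (f N : ℕ) (l : ℕ) (la : OO) (r : ZMod l), DatL f l la r →
  ∀ h : Gal(Om/ℚ) → ZMod 2, IsH f N l r h →
  ∀ P : Ideal ZZ, Npr P → ¬ MP P (toO la) →
    ∀ ι ∈ P.inertia Gal(Om/ℚ), ι ∈ (Ln f N).fixingSubgroup → h ι = 0

/-- (60 lines, module `NmK`) **The prime `(λ)` of `K`.** PROOF. The ideal `(λ)` of `𝓞 K` has absolute norm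
`|N_{K/ℚ} λ| = Nm λ = l`, a prime number (`Ideal.absNorm_span_singleton`; the norm of `λ` from `K` to `ℚ`: the
matrix of the multiplication by `λ = x + y w` in the basis `1, w` of `K = ℚ(w)`, `w ^ 2 = w - 2`, has the
determinant `x ^ 2 + x y + 2 y ^ 2`; or `Algebra.norm_eq_prod_embeddings`), so it is a prime ideal
(`Ideal.isPrime_of_irreducible_absNorm`), hence maximal. If `P ∩ 𝓞 K` contains `λ` then it is equal to
`(λ)`. (`KQ` is a number field: `wO` is algebraic.) -/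
def S_hNmK : Prop := ∀ (l : ℕ) (la : OO), l.Prime → Nm la = l → ∃ (_ : NumberField KQ) (b : 𝓞 KQ),
  ((b : KQ) : Om) = toO la ∧ (Ideal.span {b} : Ideal (𝓞 KQ)).IsPrime ∧
    ∀ P : Ideal ZZ, P.IsPrime → MP P (toO la) → P.comap (iO KQ) = Ideal.span {b}

/-- (120 lines, module `Inr`) **`K(√λ)/K` is ramified over `λ`.** PROOF. Suppose that all
`ι ∈ P.inertia ∩ GK` fix `β = sqr (toO λ)`. `tRm tIne : ...` (FW/G/Rm, FW/G/Ine) with
`p = 2`, `ζ = -1`, `L = KQ`, `b = toO λ ∈ KQ`, gives `2 ∣ FractionalIdeal.count K w (span b)` for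
the prime `w = P ∩ 𝓞 K = (b)` (`S_hNmK`; not `⊥`). But this count is `1`: the fractional ideal is `w` itself
(`FractionalIdeal.count_self`, `coeIdeal_span_singleton`). USES `S_hNmK`. -/
def S_hInr : Prop := ∀ (l : ℕ) (la : OO), l.Prime → l ≠ 2 → Nm la = l →
  ∀ P : Ideal ZZ, Npr P → (l : ZZ) ∈ P → MP P (toO la) →
    ∃ ι ∈ P.inertia Gal(Om/ℚ), ι ∈ GK ∧ ι (sqr (toO la)) ≠ sqr (toO la)

/-- (200 lines, module `Ram`) **`h` is ramified over `λ`.** PROOF. Take `ι` from `S_hInr`, `β = sqr (toO λ)`,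
`β ^ 2 = toO λ`, `ι β = - β`. (1) `ι ∈ Gal(Om/F)`: `S_E4` (second part) for the integer `f 2^N` (not in `P`: it is prime
to `l ∈ P`): `Psi ι (f 2^N) (±1)`; for any `a` with `Psi ι (f 2^N) a`, `a ≡ ±1` (`S_E1`), `HN f N a`
(`S_UHN`); `S_hFix`. (2) Let `Psi ι l a` (`S_E1`), and suppose that `x = rd r a` is a square.
`B = (Sqs l).filter (2 j < l)`, `x₁ = ∏_{j ∈ B} zO (j/λ)`. `ι (zO (j/λ)) = zO (a j/λ)`
(`j/λ = toC (j cjO λ)/l`; `zO z = (xO z - 1/4)/toO s7`, `ι` fixes `toO s7`) `= zO (j'/λ)` with `j' = (x * j).val`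
(`S_hLat`, periodicity of `xO`: `S_B2`). `S_hPrm` on `B` (in `ℕ`) with `R j j'` : `(j : ZMod l) = j'` or
`= -j'`, `e j = (x * j).val`, `G j = zO (j/λ)` (periodic and even: `S_B2`, `S_hLat`) gives
`ι x₁ = x₁`: for `j ∈ B`, `j' = e j ∈ Sqs l`, and `j'` or `l - j'` is in `B`; injective: `j = ± j'` in
`ZMod l` and `0 < 2 j, 2 j' < l` give `j = j'`. (3) `y = x₁ β` is a unit at `P`:
`y ^ 2 = x₁ ^ 2 λ = (∏_{j ∈ Sqs l} zO (j/λ)) λ` (`S_hRdm` (10)), and the `((l-1)/2)`-th power of this is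
`∏_{j ∈ Sqs l} (λ zO (j/λ) ^ ((l-1)/2))` (`(Sqs l).card = (l-1)/2`), a unit by `S_D3`;
`UP.of_pow` twice (`l ≥ 5`). (4) `ι y = - y` and `ι y - y ∈ MP P` (`VP.inertia`), so `2 y ∈ MP P`; `2` and
`y` are units at `P`: contradiction (`MP.mul_cases`). So `rd r a` is not a square, `h ι ≠ 0`.
USES `S_hInr`, `S_E1`, `S_E4`, `S_D3`, `S_B2`, `S_hPrm`, `S_hFix`, `S_hRdm`, `S_hLat`, `S_UHN`,
`S_UCop`. -/
def S_hRam : Prop := ∀ (f N : ℕ) (l : ℕ) (la : OO) (r : ZMod l), DatL f l la r →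
  ∀ h : Gal(Om/ℚ) → ZMod 2, IsH f N l r h →
  ∀ P : Ideal ZZ, Npr P → (l : ZZ) ∈ P → MP P (toO la) →
    ∃ ι ∈ P.inertia Gal(Om/ℚ), ι ∈ (Ln f N).fixingSubgroup ∧ h ι ≠ 0

/-- (100 lines, module `Tra`) **Transitivity.** PROOF. `GK = KQ.fixingSubgroup` is closed, hence profinite, acts
continuously on the discrete `ZZ` with invariants the integers of `KQ`; `P` and `Q` contain the same
elements of `𝓞 K` by `S_hNmK`. Then `MuZ/Tot.lean` (`tot_trans`) or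
`Algebra.IsInvariant.exists_smul_of_under_eq_of_profinite`, as in `FW/G/Ine.lean`. USES `S_hNmK`. -/
def S_hTra : Prop := ∀ (l : ℕ) (la : OO), l.Prime → Nm la = l → ∀ P Q : Ideal ZZ,
  Npr P → Npr Q → MP P (toO la) → MP Q (toO la) → ∃ σ ∈ GK, P = σ • Q

/-! ## Result -/

/-- (150 lines, module `Res`) **Result of part H3.** PROOF. `φ ∈ GK` (`S_hFix`). `S_hLa`: `λ`, `r`. `HN f N λ`: `S_E2` (`l` is prime
to `f 2 ^ N`): `Psi φ (f 2^N) (±λ)`, so `HN f N (±λ)` (`S_hFix`) and `HN f N λ` (`S_UHN`). So `Dat`. `c` from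
`S_hCC`. `w = ε_s / c ^ (|T|/2)`, `h` from `S_hHom`. (1) For `τ ∈ Gal(Om/F)` let
`Psi τ (f 2^N l Nm μ) a` (`S_E1`); `HN f N a` since `Psi τ (f 2^N) a` (`S_hFix`); `S_hEps`, `τ c = c`
(`c ∈ KQ`), `ε_s ε_n = c ^ |T|` (`S_hNrm`), `|T|` even (`S_UHN`): `h τ = 0`: `τ w = w`; `h τ ≠ 0`:
`τ w = ε_n / c ^ (|T|/2) = w⁻¹`. (2) `w` is a unit at all `P` not over `2`: `S_hUni`, `IsC`.
(3) unramified: `P ≠ σ Q` for all `σ ∈ GK`: if `MP P (toO λ)` then `S_hTra` gives a contradiction; so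
`S_hUnr`. (4) `P = σ Q`, `σ ∈ GK`: `(l : ZZ) ∈ P`, `MP P (toO λ)` (`MP.smul`, `σ` fixes `toO λ`); `S_hRam`; the
Frobenius element at `P` is `ψ = σ φ σ⁻¹ ∈ Gal(Om/F)` (`S_hFix`): `ψ • x - x ^ l ∈ σ Q`; `S_hCng`, `S_hLeg`
(`u` is fixed by `ψ` as `u ∈ Ln f N`, `S_G3`; unit at `P`, `S_hUni`). `h ≠ 0` by `S_hRam` for `P = Q`. USES
`S_E1`, `S_E2`, `S_G3`, `S_hLa`, `S_hCC`, `S_hFix`, `S_hEps`, `S_hUni`, `S_hNrm`, `S_hCng`, `S_hLeg`, `S_hHom`,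
`S_hUnr`, `S_hRam`, `S_hTra`, `S_UHN`, `S_UCop`. -/
def S_hRes : Prop := ∀ (f N : ℕ) (μ : OO) (S : Finset ℂ) (T : Finset OO) (v : OO), Odd f → 7 ∣ f →
  2 ≤ N → Cop μ (2 * f) → IsHalf μ S → IsRep f N T → Cop v (2 * f) →
  ∀ (l : ℕ), l.Prime → l % 4 = 1 → l.Coprime (7 * f * (Nm μ).toNat) →
  ∀ Q : Ideal ZZ, Npr Q → (l : ZZ) ∈ Q →
  ∀ φ ∈ (Ln f N).fixingSubgroup, (∀ x : ZZ, φ • x - x ^ l ∈ Q) →
  ∃ h ∈ VV 2 ∅ (Ln f N).fixingSubgroup, ∃ w : Om, w ≠ 0 ∧ h ≠ 0 ∧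
    (∀ τ ∈ (Ln f N).fixingSubgroup, h τ = 0 → τ w = w) ∧
    (∀ τ ∈ (Ln f N).fixingSubgroup, h τ ≠ 0 → τ w * w = 1) ∧
    (∀ P : Ideal ZZ, Npr P → ¬ MP P 2 → UP P w) ∧
    (∀ P : Ideal ZZ, Npr P → ¬ MP P 2 → (∀ σ ∈ GK, P ≠ σ • Q) →
      ∀ ι ∈ P.inertia Gal(Om/ℚ), ι ∈ (Ln f N).fixingSubgroup → h ι = 0) ∧
    ∀ σ ∈ GK, (∃ ι ∈ (σ • Q).inertia Gal(Om/ℚ), ι ∈ (Ln f N).fixingSubgroup ∧ h ι ≠ 0) ∧
      (kap (σ⁻¹ (uN f N μ S T v)) φ = 0 → MP (σ • Q) (w - 1)) ∧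
      (kap (σ⁻¹ (uN f N μ S T v)) φ ≠ 0 → MP (σ • Q) (w + 1))

/-- (100 lines, module `Fin`: `theorem tFin : S_hRes → S_KAP → S_KK`) **Assembly.** PROOF. `φ` from `IsFr`: `φ ∈ Gal(Om/F)`,
`φ x ≡ x ^ l mod Q` (the cardinal is `l`). `S_hRes`: `h`, `w`; `S_KAP`: `k`. `¬ MP Q' 2` iff `(2 : ZZ) ∉ Q'`
(`MP.nat_iff`). First part: if `Q' ∩ F` is different from all `σ Q ∩ F` then `Q' ≠ σ Q`, so `h = 0` on the
inertia group and `vl` is even. Second part: `q' = (s Q) ∩ F`, `Ab F (s • Q) q'` (`s • Q` is a nonzero prime);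
`(2 : ZZ) ∉ s • Q` (otherwise `2 ∈ Q`, with `l ∈ Q`, `l` odd, `1 ∈ Q`). `S_KAP` gives even and
`w ≡ 1`, or odd and `w ≡ -1`; if `kap = 0` then `w ≡ 1`, and `w ≡ -1` is impossible (`2 ∈ MP`), so `vl` is
even; if `kap ≠ 0` (`= 1` in `ZMod 2`) then `w ≡ -1`, so `vl` is odd. -/
def S_hFin : Prop := S_hRes → S_KAP → S_KK

end Pool.Agent.DI.H3
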